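import Mathlib

/-! Representations of groups over `ℚ` on the span of a finite stable set: equivariant projections, small stable subspaces. -/

set_option autoImplicit false

namespace TSF

section

variable {Γ U : Type} [Group Γ] [AddCommGroup U] [Module ℚ U] (ρ : Γ →* (U →ₗ[ℚ] U))

theorem rho_inv (g : Γ) (v : U) : ρ g⁻¹ (ρ g v) = v := by
  rw [← Module.End.mul_apply, ← map_mul, inv_mul_cancel, map_one, Module.End.one_apply]

theorem rho_inv' (g : Γ) (v : U) : ρ g (ρ g⁻¹ v) = v := by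
  rw [← Module.End.mul_apply, ← map_mul, mul_inv_cancel, map_one, Module.End.one_apply]

theorem rho_mul (g h : Γ) (v : U) : ρ (g * h) v = ρ g (ρ h v) := by
  rw [map_mul, Module.End.mul_apply]

theorem span_stable {T : Set U} (hT : ∀ g, ∀ t ∈ T, ρ g t ∈ T) (g : Γ) {v : U} (hv : v ∈ Submodule.span ℚ T) :
    ρ g v ∈ Submodule.span ℚ T := by
  induction hv using Submodule.span_induction with
  | mem t ht => exact Submodule.subset_span (hT g t ht)
  | zero => rw [map_zero]; exact Submodule.zero_mem _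
  | add x y _ _ hx hy => rw [map_add]; exact Submodule.add_mem _ hx hy
  | smul c x _ hx => rw [map_smul]; exact Submodule.smul_mem _ _ hx

/-- **The equivariant projection** onto a stable subspace of the span of a finite stable set. -/
theorem exists_proj {T : Set U} (hfin : T.Finite) (hT : ∀ g, ∀ t ∈ T, ρ g t ∈ T) {W : Submodule ℚ U}
    (hWT : W ≤ Submodule.span ℚ T) (hW : ∀ g, ∀ v ∈ W, ρ g v ∈ W) :
    ∃ π : U →ₗ[ℚ] U, (∀ v, π v ∈ W) ∧ (∀ v ∈ W, π v = v) ∧ ∀ g, ∀ v ∈ Submodule.span ℚ T, π (ρ g v) = ρ g (π v) := by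
  classical
  have hfT : Finite T := hfin
  obtain ⟨p, hp⟩ := W.subtype.exists_leftInverse_of_injective (LinearMap.ker_eq_bot.2 W.injective_subtype)
  -- the restriction to `T`
  let res : Γ → (T → T) := fun g t => ⟨ρ g t.1, hT g t.1 t.2⟩
  let Φ := {f : T → T // ∃ g, res g = f}
  have hΦ : Finite Φ := inferInstance
  have hΦf : Fintype Φ := Fintype.ofFinite Φ
  have hΦ0 : (Fintype.card Φ : ℚ) ≠ 0 := by
    have : Nonempty Φ := ⟨⟨res 1, 1, rfl⟩⟩
    exact Nat.cast_ne_zero.2 Fintype.card_ne_zero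
  let γ : Φ → Γ := fun f => f.2.choose
  have hγ : ∀ f : Φ, res (γ f) = f.1 := fun f => f.2.choose_spec
  -- two elements with the same restriction agree on the span
  have hag : ∀ g h : Γ, res g = res h → ∀ v ∈ Submodule.span ℚ T, ρ g v = ρ h v := by
    intro g h hgh v hv
    induction hv using Submodule.span_induction with
    | mem t ht => exact congrArg Subtype.val (congrFun hgh ⟨t, ht⟩)
    | zero => rw [map_zero, map_zero]
    | add x y _ _ hx hy => rw [map_add, map_add, hx, hy]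
    | smul c x _ hx => rw [map_smul, map_smul, hx]
  have hag' : ∀ g h : Γ, res g = res h → ∀ v ∈ Submodule.span ℚ T, ρ g⁻¹ v = ρ h⁻¹ v := by
    intro g h hgh v hv
    have h1 := hag g h hgh (ρ h⁻¹ v) (span_stable ρ hT h⁻¹ hv)
    rw [rho_inv' ρ h v] at h1
    have h2 := congrArg (ρ g⁻¹) h1
    rw [rho_inv] at h2
    exact h2.symm
  let pW : U →ₗ[ℚ] U := W.subtype ∘ₗ p
  have hpW : ∀ v, pW v ∈ W := fun v => (p v).2
  have hpW' : ∀ v ∈ W, pW v = v := by
    intro v hv
    have h1 := LinearMap.congr_fun hp ⟨v, hv⟩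
    have h2 : p v = ⟨v, hv⟩ := h1
    show ((p v : W) : U) = v
    rw [h2]
  let π : U →ₗ[ℚ] U := (Fintype.card Φ : ℚ)⁻¹ • ∑ f : Φ, ρ (γ f) ∘ₗ pW ∘ₗ ρ (γ f)⁻¹
  have hπ : ∀ v, π v = (Fintype.card Φ : ℚ)⁻¹ • ∑ f : Φ, ρ (γ f) (pW (ρ (γ f)⁻¹ v)) := by
    intro v
    simp only [π, LinearMap.smul_apply, LinearMap.sum_apply, LinearMap.comp_apply]
  refine ⟨π, fun v => ?_, fun v hv => ?_, fun g v hv => ?_⟩
  · rw [hπ]
    exact W.smul_mem _ (W.sum_mem fun f _ => hW _ _ (hpW _))
  · rw [hπ]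
    have h1 : ∀ f : Φ, ρ (γ f) (pW (ρ (γ f)⁻¹ v)) = v := by
      intro f
      rw [hpW' _ (hW _ _ hv), rho_inv']
    rw [Finset.sum_congr rfl fun f _ => h1 f, Finset.sum_const, Finset.card_univ, ← Nat.cast_smul_eq_nsmul ℚ, smul_smul,
      inv_mul_cancel₀ hΦ0, one_smul]
  · rw [hπ, hπ, map_smul, map_sum]
    congr 1
    -- the permutation of `Φ`
    have hperm : ∀ f : Φ, ∃ g' : Γ, res g' = fun t => ⟨ρ g (f.1 t).1, hT g _ (f.1 t).2⟩ := by
      intro f
      refine ⟨g * γ f, ?_⟩
      funext t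
      apply Subtype.ext
      show ρ (g * γ f) t.1 = ρ g (f.1 t).1
      rw [rho_mul, ← hγ f]
    let e : Φ → Φ := fun f => ⟨_, hperm f⟩
    have hei : Function.Injective e := by
      intro f f' h
      apply Subtype.ext
      funext t
      apply Subtype.ext
      have h1 := congrArg Subtype.val (congrFun (congrArg Subtype.val h) t)
      have h2 : ρ g (f.1 t).1 = ρ g (f'.1 t).1 := h1
      rw [← rho_inv ρ g (f.1 t).1, h2, rho_inv]
    have heb : Function.Bijective e := Finite.injective_iff_bijective.1 hei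
    have hre : ∀ f : Φ, res (γ (e f)) = res (g * γ f) := by
      intro f
      rw [hγ]
      funext t
      apply Subtype.ext
      show ρ g (f.1 t).1 = ρ (g * γ f) t.1
      rw [rho_mul, ← hγ f]
    rw [← Function.Bijective.sum_comp heb fun f : Φ => ρ (γ f) (pW (ρ (γ f)⁻¹ (ρ g v)))]
    refine Finset.sum_congr rfl fun f _ => ?_
    have h1 : ρ (γ (e f))⁻¹ (ρ g v) = ρ (γ f)⁻¹ v := by
      rw [hag' _ _ (hre f) _ (span_stable ρ hT g hv), mul_inv_rev, rho_mul, rho_inv]
    rw [h1, hag _ _ (hre f) _ (hWT (hpW _)), rho_mul]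

/-- A small stable subspace. -/
theorem exists_minimal {T : Set U} (hfin : T.Finite) (hT : ∀ g, ∀ t ∈ T, ρ g t ∈ T) (hne : Submodule.span ℚ T ≠ ⊥) :
    ∃ W : Submodule ℚ U, W ≤ Submodule.span ℚ T ∧ W ≠ ⊥ ∧ (∀ g, ∀ v ∈ W, ρ g v ∈ W) ∧
      ∀ W' : Submodule ℚ U, W' ≤ W → W' ≠ ⊥ → (∀ g, ∀ v ∈ W', ρ g v ∈ W') → W' = W := by
  classical
  have hfd : FiniteDimensional ℚ (Submodule.span ℚ T) := FiniteDimensional.span_of_finite ℚ hfin
  let A : Set ℕ := {n | ∃ W : Submodule ℚ U, W ≤ Submodule.span ℚ T ∧ W ≠ ⊥ ∧ (∀ g, ∀ v ∈ W, ρ g v ∈ W) ∧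
    Module.finrank ℚ W = n}
  have hA : A.Nonempty := ⟨_, Submodule.span ℚ T, le_rfl, hne, fun g v hv => span_stable ρ hT g hv, rfl⟩
  obtain ⟨W, h1, h2, h3, h4⟩ := Nat.sInf_mem hA
  refine ⟨W, h1, h2, h3, fun W' h5 h6 h7 => ?_⟩
  have hfW : FiniteDimensional ℚ W := Submodule.finiteDimensional_of_le h1
  refine Submodule.eq_of_le_of_finrank_le h5 ?_
  rw [h4]
  exact Nat.sInf_le ⟨W', h5.trans h1, h6, h7, rfl⟩

end

/-- The span of a finite set which is stable under `t ↦ -t`. -/
theorem finrank_pm {U : Type} [AddCommGroup U] [Module ℚ U] (T : Finset U) (hT : ∀ t ∈ T, -t ∈ T) :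
    2 * Module.finrank ℚ (Submodule.span ℚ (T : Set U)) ≤ T.card := by
  classical
  induction' h : T.card using Nat.strong_induction_on with n ih generalizing T
  by_cases h0 : ∃ t ∈ T, t ≠ 0
  · obtain ⟨t, ht, ht0⟩ := h0
    have hne : -t ≠ t := by
      intro h1
      apply ht0
      have h2 : (2 : ℚ) • t = 0 := by
        rw [two_smul]
        nth_rewrite 1 [← h1]
        exact neg_add_cancel t
      exact (smul_eq_zero.1 h2).resolve_left two_ne_zero
    set T' := (T.erase t).erase (-t) with hT'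
    have hmem : ∀ x, x ∈ T' ↔ x ≠ -t ∧ x ≠ t ∧ x ∈ T := fun x => by
      rw [hT', Finset.mem_erase, Finset.mem_erase]
    have hcard : T'.card + 2 = T.card := by
      rw [hT', Finset.card_erase_of_mem (Finset.mem_erase.2 ⟨hne, hT t ht⟩), Finset.card_erase_of_mem ht]
      have h1 : 1 < T.card := Finset.one_lt_card.2 ⟨t, ht, -t, hT t ht, hne.symm⟩
      omega
    have h1 := ih T'.card (by omega) T' (fun x hx => by
      rw [hmem] at hx ⊢
      exact ⟨fun h2 => hx.2.1 (neg_injective h2), fun h2 => hx.1 (by rw [← h2, neg_neg]), hT x hx.2.2⟩) rfl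
    have h2 : Submodule.span ℚ (T : Set U) ≤ Submodule.span ℚ (T' : Set U) ⊔ Submodule.span ℚ {t} := by
      rw [Submodule.span_le]
      intro x hx
      by_cases hx1 : x = t
      · rw [hx1]
        exact Submodule.mem_sup_right (Submodule.mem_span_singleton_self t)
      · by_cases hx2 : x = -t
        · rw [hx2]
          exact Submodule.neg_mem _ (Submodule.mem_sup_right (Submodule.mem_span_singleton_self t))
        · exact Submodule.mem_sup_left (Submodule.subset_span ((hmem x).2 ⟨hx2, hx1, hx⟩))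
    have hf1 : FiniteDimensional ℚ (Submodule.span ℚ (T' : Set U)) := FiniteDimensional.span_finset ℚ T'
    have hf2 : FiniteDimensional ℚ (Submodule.span ℚ ({t} : Set U)) := FiniteDimensional.span_singleton ℚ t
    have h3 : Module.finrank ℚ (Submodule.span ℚ (T : Set U)) ≤ Module.finrank ℚ (Submodule.span ℚ (T' : Set U)) + 1 := by
      refine (Submodule.finrank_mono h2).trans ?_
      refine (Submodule.finrank_add_le_finrank_add_finrank _ _).trans ?_
      exact Nat.add_le_add_left (finrank_span_singleton ht0).le _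
    omega
  · push Not at h0
    have h1 : Submodule.span ℚ (T : Set U) = ⊥ := Submodule.span_eq_bot.2 h0
    rw [h1, finrank_bot]
    omega

end TSF
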