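import Pool.Agent.Lib.MP_021685_agSF.SFD
import Pool.Agent.Lib.MP_021685_agTAL.AD

/-! Definition used in the statement of `MP_021685_ag.AlmostAllLifts`: the products of the roots of a polynomial over number
fields.  `Gens` is defined in `MP_021685_agTAL/AD.lean`. -/

set_option autoImplicit false

namespace TSF

open Polynomial

/-- For every product `u` of roots of `P`, no power of which is a power of `Q`, there is a field `E i` such that `g i` conjugates
of `u` are multiplicatively independent modulo `Q`, and every splitting field of a rational polynomial which contains a power of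
`u` contains a field isomorphic to `E i` (a member of `Gens (E i)`). -/
def Wide (Q : ℕ) {r : ℕ} (g : Fin r → ℕ) (E : Fin r → Type) [∀ i, Field (E i)] [∀ i, NumberField (E i)] (P : ℤ[X]) : Prop :=
  ∀ u ∈ Submonoid.closure {z : ℂ | aeval z P = 0}, (∀ (N : ℕ) (b : ℤ), 0 < N → u ^ N ≠ (Q : ℂ) ^ b) →
    ∃ i, RankGE Q (g i) u ∧ ∀ (f : ℚ[X]) (M : ℕ), f ≠ 0 → 0 < M → u ^ M ∈ IntermediateField.adjoin ℚ (f.rootSet ℂ) →
      ∃ z ∈ TAL.Gens (E i), z ∈ IntermediateField.adjoin ℚ (f.rootSet ℂ)

end TSF
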