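import Pool.Agent.Lib.MP_021685_agSF.SF10
import Pool.Agent.Lib.MP_021685_agSF.SFE
import Pool.Agent.Lib.MP_021685_agTM.OD
import Pool.Agent.Lib.MP_021685_agSP.SPT
import Pool.Agent.Lib.MP_021685_agTAL.AP

/-! Abelian varieties over finite fields without exotic Tate classes on their powers, and foreign varieties: the final forms. -/

set_option autoImplicit false

attribute [-instance] Pool.Agent.Lib.MP_802513_ag.W.fintypeEmb

namespace TSF

open Polynomial

/-- For abelian varieties over finite fields, literally (`TAL.TateLit`), and for all multilinear forms. -/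
theorem tateOver {Q : ℕ} (hQ : 0 < Q) {R : ℤ[X]} (hm : R.Monic)
    (habs : ∀ z : ℂ, aeval z R = 0 → z * starRingEnd ℂ z = (Q : ℂ)) (hF : TI.Full Q R) :
    TAL.TateOver Q R (SmallFor Q R) := by
  have hfull := full_smallFor hQ hm habs hF
  exact ⟨TAL.tateLit_of_full hQ (fun z hz => ⟨habs z hz, sq_ne_of_full hF hm hz⟩) smallFor_one
    (fun _ d _ h => smallFor_pow h d) hfull, hfull⟩

/-- The polynomials over the fields of a family. -/
theorem full_of_family {r : ℕ} {g : Fin r → ℕ} {E : Fin r → Type} [∀ i, Field (E i)] [∀ i, NumberField (E i)]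
    (hE : TPM.Family g E) {Q : ℕ} (hQ : 1 < Q) {P : ℤ[X]} (hP : TGR.IsOver Q E P) :
    TI.Full Q P ∧ Wide Q g E P ∧ ∀ y : ℂ, (∀ i, TAF.Small Q (TAL.Gens (E i)) (g i) y) → SmallFor Q P y := by
  obtain ⟨hE, hsep⟩ := hE
  obtain ⟨hmon, hs, J, _, a, ha, hind, hroot⟩ := hP
  have hQ0 : 0 < Q := by omega
  refine ⟨TSP.evenFull_of_tateFields (TSP.tateFields hE hsep) Q J a P hQ0 hmon ha hroot hind, fun u hu hnt => ?_,
    fun y hy => smallFor_of_small hE hsep hQ0 ha hmon (fun z hz => (hroot z).1 hz) fun i _ => hy i⟩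
  obtain ⟨i, -, h1, h2⟩ := bridge hE hsep hQ0 ha hmon (fun z hz => (hroot z).1 hz) hu hnt
  exact ⟨i, h1, h2⟩

end TSF
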