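import Pool.Agent.Lib.MP_021685_agSF.SFG
import Pool.Agent.Lib.MP_021685_agTI.FT1
import Pool.Agent.Lib.MP_021685_agTI.FT2

/-! Forms in an odd number of arguments: if no root is supersingular, then the condition for an even number of arguments
(no exotic Tate classes on the powers) gives the condition for any number of arguments. -/

set_option autoImplicit false

namespace TSF

open Polynomial

private theorem SF12_pow {V : Type} [AddCommGroup V] [Module ℂ V] (F : V →ₗ[ℂ] V) {v : V} {l : ℂ} (h : F v = l • v) (d : ℕ) :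
    (F ^ d) v = l ^ d • v := by
  induction d with
  | zero => simp
  | succ n ih =>
    rw [pow_succ, Module.End.mul_apply, h, map_smul, ih, smul_smul, pow_succ, mul_comm]

private theorem SF12_sign {x y : ℂ} {c : ℝ} (hx : x * starRingEnd ℂ x = (c : ℂ)) (hxy : x * y = (c : ℂ)) (hc : c ≠ 0) :
    y = starRingEnd ℂ x := by
  have hx0 : x ≠ 0 := by
    rintro rfl
    rw [zero_mul] at hxy
    exact hc (by exact_mod_cast hxy.symm)
  exact mul_left_cancel₀ hx0 (hxy.trans hx.symm)

/-- `T(v) T(w)`. -/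
private noncomputable def SF12_sq {k : ℕ} {V : Type} [AddCommGroup V] [Module ℂ V]
    (T : MultilinearMap ℂ (fun _ : Fin k => V) ℂ) : MultilinearMap ℂ (fun _ : Fin (k + k) => V) ℂ :=
  ((LinearMap.mul' ℂ ℂ).compMultilinearMap (T.domCoprod T)).domDomCongr finSumFinEquiv

private theorem SF12_sq_apply {k : ℕ} {V : Type} [AddCommGroup V] [Module ℂ V]
    (T : MultilinearMap ℂ (fun _ : Fin k => V) ℂ) (v : Fin (k + k) → V) :
    SF12_sq T v = T (fun i => v (finSumFinEquiv (Sum.inl i))) * T (fun i => v (finSumFinEquiv (Sum.inr i))) := by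
  unfold SF12_sq
  rw [MultilinearMap.domDomCongr_apply, LinearMap.compMultilinearMap_apply, MultilinearMap.domCoprod_apply,
    LinearMap.mul'_apply]

/-- If no root is supersingular, then an even number of arguments is enough. -/
theorem full_of_evenFull {Q : ℕ} (hQ : 0 < Q) {P : ℤ[X]}
    (habs : ∀ z : ℂ, aeval z P = 0 → z * starRingEnd ℂ z = (Q : ℂ))
    (hns : ∀ z : ℂ, aeval z P = 0 → ∀ N : ℕ, 0 < N → z ^ (2 * N) ≠ (Q : ℂ) ^ N)
    (h : EvenFull Q P) : TI.Full Q P := by
  classical
  intro V _ _ _ F hss hchar d k hd T hT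
  by_cases hk : Even k
  · exact h V F hss hchar d k hd hk T hT
  obtain ⟨ι, _, b, lam, hb, hlam⟩ := TI.eigenbasis V F hss
  refine TI.mem_of_coord b T _ fun a ha M hM => (hk ?_).elim
  have hroot : ∀ i, aeval (lam i) P = 0 := by
    intro i
    have h1 := hlam i
    rw [hchar, eval_map, ← algebraMap_int_eq, ← aeval_def] at h1
    exact h1
  have hQd : ((Q : ℝ) ^ d) ≠ 0 := pow_ne_zero _ (Nat.cast_ne_zero.2 hQ.ne')
  -- the numbers `z ^ d`
  have hconj : ∀ i, lam i ^ d * starRingEnd ℂ (lam i ^ d) = (((Q : ℝ) ^ d : ℝ) : ℂ) := by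
    intro i
    rw [map_pow, ← mul_pow, habs _ (hroot i), Complex.ofReal_pow, Complex.ofReal_natCast]
  have him : ∀ i, (lam i ^ d).im ≠ 0 := by
    intro i h0
    have h1 : starRingEnd ℂ (lam i ^ d) = lam i ^ d := Complex.conj_eq_iff_im.2 h0
    have h2 := hconj i
    rw [h1, ← pow_two, ← pow_mul, Complex.ofReal_pow, Complex.ofReal_natCast, mul_comm] at h2
    exact hns _ (hroot i) d hd h2
  -- the square of `T`
  have hsq : TI.IsTate Q d (k + k) F (SF12_sq T) := by
    intro v
    rw [SF12_sq_apply, SF12_sq_apply]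
    have e1 := hT fun i => v (finSumFinEquiv (Sum.inl i))
    have e2 := hT fun i => v (finSumFinEquiv (Sum.inr i))
    rw [e1, e2, mul_add, pow_add]
    ring
  have hspan := h V F hss hchar d (k + k) hd ⟨k, rfl⟩ _ hsq
  -- a product which is not zero
  set a2 : Fin (k + k) → ι := fun j => Sum.elim a a (finSumFinEquiv.symm j) with ha2
  have hval : SF12_sq T (fun j => b (a2 j)) ≠ 0 := by
    rw [SF12_sq_apply]
    simp only [ha2, Equiv.symm_apply_apply, Sum.elim_inl, Sum.elim_inr]
    exact mul_ne_zero ha ha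
  obtain ⟨T', hT', hne⟩ : ∃ T' : MultilinearMap ℂ (fun _ : Fin (k + k) => V) ℂ, TI.IsProduct Q d (k + k) F T' ∧
      T' (fun j => b (a2 j)) ≠ 0 := by
    by_contra hcon
    push Not at hcon
    refine hval ?_
    have key : ∀ T' ∈ Submodule.span ℂ {T' : MultilinearMap ℂ (fun _ : Fin (k + k) => V) ℂ |
        TI.IsProduct Q d (k + k) F T'}, T' (fun j => b (a2 j)) = 0 := by
      intro T' hT'
      induction hT' using Submodule.span_induction with
      | mem T₀ h => exact hcon T₀ h
      | zero => rfl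
      | add x y _ _ hx hy => rw [add_apply, hx, hy, add_zero]
      | smul c x _ hx => rw [smul_apply, hx, smul_zero]
    exact key _ hspan
  obtain ⟨m, e, B, hB, hTB⟩ := hT'
  rw [hTB] at hne
  have hpair : ∀ i : Fin m, lam (a2 (e (Sum.inl i))) ^ d * lam (a2 (e (Sum.inr i))) ^ d = (((Q : ℝ) ^ d : ℝ) : ℂ) := by
    intro i
    have h1 := Finset.prod_ne_zero_iff.1 hne i (Finset.mem_univ i)
    have h2 := hB i (b (a2 (e (Sum.inl i)))) (b (a2 (e (Sum.inr i))))
    rw [SF12_pow F (hb _), SF12_pow F (hb _), map_smul, map_smul, LinearMap.smul_apply, smul_smul, smul_eq_mul] at h2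
    have h3 := mul_right_cancel₀ h1 h2
    rw [Complex.ofReal_pow, Complex.ofReal_natCast, ← h3, mul_comm]
  -- the signs
  set s : ι → ℤ := fun i => if 0 < (lam i ^ d).im then 1 else -1 with hs
  have hs2 : ∀ i : Fin m, s (a2 (e (Sum.inl i))) + s (a2 (e (Sum.inr i))) = 0 := by
    intro i
    have h1 := SF12_sign (hconj (a2 (e (Sum.inl i)))) (hpair i) hQd
    have h2 : (lam (a2 (e (Sum.inr i))) ^ d).im = -(lam (a2 (e (Sum.inl i))) ^ d).im := by
      rw [h1, Complex.conj_im]
    have h3 := him (a2 (e (Sum.inl i)))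
    simp only [hs]
    rw [h2]
    rcases lt_or_gt_of_ne h3 with h4 | h4
    · rw [if_neg (not_lt.2 h4.le), if_pos (neg_pos.2 h4)]
      norm_num
    · rw [if_pos h4, if_neg (by linarith)]
      norm_num
  have hsum1 : ∑ j : Fin (k + k), s (a2 j) = 0 := by
    rw [← Equiv.sum_comp e, Fintype.sum_sum_type, ← Finset.sum_add_distrib]
    exact Finset.sum_eq_zero fun i _ => hs2 i
  have hsum2 : ∑ j : Fin (k + k), s (a2 j) = ∑ i : Fin k, s (a i) + ∑ i : Fin k, s (a i) := by
    rw [← Equiv.sum_comp (finSumFinEquiv (m := k) (n := k)), Fintype.sum_sum_type]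
    simp only [ha2, Equiv.symm_apply_apply, Sum.elim_inl, Sum.elim_inr]
  have hsum : ∑ i : Fin k, s (a i) = 0 := by
    rw [hsum1] at hsum2
    omega
  have hs3 : ∀ i : Fin k, s (a i) = 1 - 2 * (if 0 < (lam (a i) ^ d).im then 0 else 1) := by
    intro i
    simp only [hs]
    split_ifs <;> norm_num
  rw [Finset.sum_congr rfl fun i _ => hs3 i, Finset.sum_sub_distrib, ← Finset.mul_sum, Finset.sum_const,
    Finset.card_univ, Fintype.card_fin, nsmul_eq_mul, mul_one] at hsum
  have h5 : (k : ℤ) = 2 * ∑ i : Fin k, (if 0 < (lam (a i) ^ d).im then (0 : ℤ) else 1) := by linarith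
  have h6 : Even (k : ℤ) := ⟨∑ i : Fin k, (if 0 < (lam (a i) ^ d).im then (0 : ℤ) else 1), by rw [h5]; ring⟩
  exact (Int.even_coe_nat k).1 h6

end TSF
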