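import Pool.Agent.Lib.MP_021685_agSF.SF11
import Pool.Agent.Lib.MP_021685_agSF.SF12
import Pool.Agent.Lib.MP_021685_agSP.SPCW

/-! No exotic Tate classes on the powers, and no real roots. -/

set_option autoImplicit false

namespace TSF

open Polynomial

theorem even_of_full {Q : ℕ} {P : ℤ[X]} (h : TI.Full Q P) : EvenFull Q P :=
  fun V _ _ _ F hs hc d k hd _ T hT => h V F hs hc d k hd T hT

/-- A root which is not real is not supersingular. -/
theorem pow_ne_of_even {Q : ℕ} {P : ℤ[X]} (h : EvenFull Q P) (hm : P.Monic) {z : ℂ} (hz : aeval z P = 0)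
    (h2 : z ^ 2 ≠ (Q : ℂ)) {N : ℕ} (hN : 0 < N) : z ^ (2 * N) ≠ (Q : ℂ) ^ N := by
  intro hs
  have h' : TSP.EvenFull Q P := fun V _ _ _ F hs hc d n hd T hT => h V F hs hc d (2 * n) hd (even_two_mul n) T hT
  obtain ⟨m, e, he⟩ := TSP.match_of_evenFull h' hm (T := Fin (2 * N)) (fun _ => z) (fun _ => hz) (n := N)
    (Fintype.card_fin _) (by rw [Finset.prod_const, Finset.card_univ, Fintype.card_fin]; exact hs)
  have hm0 : 0 < m := by
    have h1 := Fintype.card_congr e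
    rw [Fintype.card_sum, Fintype.card_fin, Fintype.card_fin] at h1
    omega
  exact h2 (by rw [pow_two]; exact he ⟨0, hm0⟩)

theorem conj_ne_iff {Q : ℕ} (hQ : 0 < Q) {z : ℂ} (h : z * starRingEnd ℂ z = (Q : ℂ)) :
    starRingEnd ℂ z ≠ z ↔ z ^ 2 ≠ (Q : ℂ) := by
  have hz : z ≠ 0 := by
    rintro rfl
    rw [zero_mul] at h
    exact hQ.ne' (by exact_mod_cast h.symm)
  rw [not_iff_not]
  constructor
  · intro h1
    rw [← h, h1, pow_two]
  · intro h1
    rw [← h, pow_two] at h1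
    exact (mul_left_cancel₀ hz h1).symm

/-- **No exotic classes and no real roots.** -/
theorem full_iff {Q : ℕ} (hQ : 0 < Q) {P : ℤ[X]} (hm : P.Monic)
    (habs : ∀ z : ℂ, aeval z P = 0 → z * starRingEnd ℂ z = (Q : ℂ)) :
    TI.Full Q P ↔ EvenFull Q P ∧ ∀ z : ℂ, aeval z P = 0 → starRingEnd ℂ z ≠ z := by
  refine ⟨fun h => ⟨even_of_full h, fun z hz => (conj_ne_iff hQ (habs z hz)).2 (sq_ne_of_full h hm hz)⟩, fun h => ?_⟩
  exact full_of_evenFull hQ habs
    (fun z hz N hN => pow_ne_of_even h.1 hm hz ((conj_ne_iff hQ (habs z hz)).1 (h.2 z hz)) hN) h.1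

/-- Every polynomial without exotic classes is good. -/
theorem good_of_even {Q : ℕ} (hQ : 1 < Q) {P : ℤ[X]} (hm : P.Monic) (hs : (P.map (Int.castRingHom ℂ)).Separable)
    (habs : ∀ z : ℂ, aeval z P = 0 → z * starRingEnd ℂ z = (Q : ℂ) ∧ starRingEnd ℂ z ≠ z) (h : EvenFull Q P) :
    TPM.Good Q P (SmallFor Q P) :=
  good_smallFor hQ hm hs (fun z hz => (habs z hz).1)
    ((full_iff (by omega) hm fun z hz => (habs z hz).1).2 ⟨h, fun z hz => (habs z hz).2⟩)

/-- The polynomials over the fields of a family. -/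
theorem good_of_family {r : ℕ} {g : Fin r → ℕ} {E : Fin r → Type} [∀ i, Field (E i)] [∀ i, NumberField (E i)]
    (hE : TPM.Family g E) {Q : ℕ} (hQ : 1 < Q) {P : ℤ[X]} (hP : TGR.IsOver Q E P) :
    TPM.Good Q P (SmallFor Q P) ∧ Wide Q g E P ∧
      ∀ y : ℂ, (∀ i, TAF.Small Q (TAL.Gens (E i)) (g i) y) → SmallFor Q P y := by
  obtain ⟨h1, h2⟩ := full_of_family hE hQ hP
  refine ⟨?_, h2⟩
  obtain ⟨hmon, hs, J, _, a, ha, hind, hroot⟩ := hP
  refine good_smallFor hQ hmon hs (fun z hz => ?_) h1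
  obtain ⟨i, k, φ, rfl⟩ := (hroot z).1 hz
  exact ha i k φ

end TSF
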