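import Mathlib

/-! The `ℚ`-vector space of the non-zero complex numbers modulo roots of unity. -/

set_option autoImplicit false

namespace TSF

open TensorProduct

/-- The vector space. -/
abbrev UU : Type := TensorProduct ℤ ℚ (Additive ℂˣ)

/-- The class of a number. -/
noncomputable def cl (x : ℂˣ) : UU := (1 : ℚ) ⊗ₜ[ℤ] Additive.ofMul x

theorem cl_mul (x y : ℂˣ) : cl (x * y) = cl x + cl y := by
  unfold cl
  rw [ofMul_mul, TensorProduct.tmul_add]

theorem cl_one : cl 1 = 0 := by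
  unfold cl
  rw [ofMul_one, TensorProduct.tmul_zero]

theorem cl_inv (x : ℂˣ) : cl x⁻¹ = -cl x := by
  unfold cl
  rw [ofMul_inv, TensorProduct.tmul_neg]

theorem cl_zpow (x : ℂˣ) (n : ℤ) : cl (x ^ n) = (n : ℚ) • cl x := by
  have h := (TensorProduct.mk ℤ ℚ (Additive ℂˣ) 1).map_smul n (Additive.ofMul x)
  unfold cl
  rw [ofMul_zpow, Int.cast_smul_eq_zsmul]
  exact h

theorem cl_pow (x : ℂˣ) (n : ℕ) : cl (x ^ n) = (n : ℚ) • cl x := by
  have h := cl_zpow x n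
  rw [zpow_natCast] at h
  rw [h, Int.cast_natCast]

theorem cl_prod {ι : Type} (s : Finset ι) (f : ι → ℂˣ) : cl (∏ i ∈ s, f i) = ∑ i ∈ s, cl (f i) := by
  classical
  induction s using Finset.induction_on with
  | empty => rw [Finset.prod_empty, Finset.sum_empty, cl_one]
  | insert a s ha ih => rw [Finset.prod_insert ha, Finset.sum_insert ha, cl_mul, ih]

theorem cl_eq_zero {x : ℂˣ} : cl x = 0 ↔ ∃ N : ℕ, 0 < N ∧ x ^ N = 1 := by
  have hloc : IsLocalizedModule (nonZeroDivisors ℤ) (TensorProduct.mk ℤ ℚ (Additive ℂˣ) 1) := inferInstance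
  constructor
  · intro h
    have h1 : TensorProduct.mk ℤ ℚ (Additive ℂˣ) 1 (Additive.ofMul x) = 0 := h
    obtain ⟨c, hc⟩ := (IsLocalizedModule.eq_zero_iff (nonZeroDivisors ℤ) (TensorProduct.mk ℤ ℚ (Additive ℂˣ) 1)).1 h1
    have hc0 : (c : ℤ) ≠ 0 := nonZeroDivisors.ne_zero c.2
    have h2 : x ^ (c : ℤ) = 1 := by
      have h3 : (c : ℤ) • Additive.ofMul x = 0 := hc
      rw [← ofMul_zpow] at h3
      exact ofMul_eq_zero.1 h3
    refine ⟨(c : ℤ).natAbs, Int.natAbs_pos.2 hc0, ?_⟩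
    rcases Int.natAbs_eq (c : ℤ) with h3 | h3
    · rw [h3, zpow_natCast] at h2
      exact h2
    · rw [h3, zpow_neg, zpow_natCast, inv_eq_one] at h2
      exact h2
  · rintro ⟨N, hN, h⟩
    have h1 := cl_pow x N
    rw [h, cl_one] at h1
    have h2 : (N : ℚ) ≠ 0 := Nat.cast_ne_zero.2 hN.ne'
    exact (smul_eq_zero.1 h1.symm).resolve_left h2

/-- Every vector is a rational multiple of a class. -/
theorem exists_cl (v : UU) : ∃ (N : ℕ) (x : ℂˣ), 0 < N ∧ (N : ℚ) • v = cl x := by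
  induction v using TensorProduct.induction_on with
  | zero => exact ⟨1, 1, one_pos, by rw [smul_zero, cl_one]⟩
  | tmul q y =>
    refine ⟨q.den, Additive.toMul y ^ q.num, q.den_pos, ?_⟩
    rw [cl_zpow]
    unfold cl
    rw [ofMul_toMul, TensorProduct.smul_tmul', TensorProduct.smul_tmul', smul_eq_mul, smul_eq_mul, mul_one,
      mul_comm, Rat.mul_den_eq_num]
  | add v w hv hw =>
    obtain ⟨N, x, hN, h1⟩ := hv
    obtain ⟨M, y, hM, h2⟩ := hw
    refine ⟨N * M, x ^ M * y ^ N, Nat.mul_pos hN hM, ?_⟩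
    rw [cl_mul, cl_pow, cl_pow, ← h1, ← h2, smul_smul, smul_smul, smul_add, Nat.cast_mul, mul_comm (M : ℚ)]

/-- The action of the automorphisms of `ℂ`. -/
noncomputable def act : (ℂ ≃+* ℂ) →* (UU →ₗ[ℚ] UU) where
  toFun τ := LinearMap.baseChange ℚ (MonoidHom.toAdditive (Units.map ((τ : ℂ →+* ℂ) : ℂ →* ℂ))).toIntLinearMap
  map_one' := by
    refine LinearMap.ext fun v => ?_
    induction v using TensorProduct.induction_on with
    | zero => rw [map_zero, map_zero]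
    | tmul q y =>
      rw [LinearMap.baseChange_tmul]
      rfl
    | add v w hv hw => rw [map_add, map_add, hv, hw]
  map_mul' τ σ := by
    refine LinearMap.ext fun v => ?_
    rw [Module.End.mul_apply]
    induction v using TensorProduct.induction_on with
    | zero => rw [map_zero, map_zero, map_zero]
    | tmul q y =>
      rw [LinearMap.baseChange_tmul, LinearMap.baseChange_tmul, LinearMap.baseChange_tmul]
      rfl
    | add v w hv hw => rw [map_add, map_add, map_add, hv, hw]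

/-- The image of a unit. -/
noncomputable def mv (τ : ℂ ≃+* ℂ) (x : ℂˣ) : ℂˣ := Units.map ((τ : ℂ →+* ℂ) : ℂ →* ℂ) x

theorem mv_val (τ : ℂ ≃+* ℂ) (x : ℂˣ) : ((mv τ x : ℂˣ) : ℂ) = τ (x : ℂ) := rfl

theorem act_cl (τ : ℂ ≃+* ℂ) (x : ℂˣ) : act τ (cl x) = cl (mv τ x) := by
  show LinearMap.baseChange ℚ _ _ = _
  unfold cl
  rw [LinearMap.baseChange_tmul]
  rfl

theorem mv_mul (τ : ℂ ≃+* ℂ) (x y : ℂˣ) : mv τ (x * y) = mv τ x * mv τ y := map_mul _ _ _

theorem mv_inv (τ : ℂ ≃+* ℂ) (x : ℂˣ) : mv τ x⁻¹ = (mv τ x)⁻¹ := map_inv _ _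

theorem mv_zpow (τ : ℂ ≃+* ℂ) (x : ℂˣ) (n : ℤ) : mv τ (x ^ n) = (mv τ x) ^ n := map_zpow _ _ _

theorem mv_mv (τ σ : ℂ ≃+* ℂ) (x : ℂˣ) : mv τ (mv σ x) = mv (τ * σ) x := rfl

theorem mv_prod {ι : Type} (τ : ℂ ≃+* ℂ) (s : Finset ι) (f : ι → ℂˣ) : mv τ (∏ i ∈ s, f i) = ∏ i ∈ s, mv τ (f i) :=
  map_prod _ _ _

end TSF
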