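import Pool.Agent.Lib.MP_021685_agSF.SF1
import Pool.Agent.Lib.MP_021685_agSF.SF2

/-! Classes of complex numbers and their conjugates. -/

set_option autoImplicit false

namespace TSF

open Polynomial

/-- The class of a complex number. -/
noncomputable def cc (z : ℂ) : UU := open Classical in if h : z = 0 then 0 else cl (Units.mk0 z h)

theorem cc_of_ne {z : ℂ} (h : z ≠ 0) : cc z = cl (Units.mk0 z h) := by
  unfold cc
  rw [dif_neg h]

theorem cc_zero : cc 0 = 0 := by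
  unfold cc
  rw [dif_pos rfl]

theorem cc_one : cc 1 = 0 := by
  rw [cc_of_ne one_ne_zero, Units.mk0_one, cl_one]

theorem cc_mul {x y : ℂ} (hx : x ≠ 0) (hy : y ≠ 0) : cc (x * y) = cc x + cc y := by
  rw [cc_of_ne hx, cc_of_ne hy, cc_of_ne (mul_ne_zero hx hy), Units.mk0_mul, cl_mul]

theorem cc_zpow {x : ℂ} (hx : x ≠ 0) (n : ℤ) : cc (x ^ n) = (n : ℚ) • cc x := by
  have h1 : Units.mk0 (x ^ n) (zpow_ne_zero n hx) = Units.mk0 x hx ^ n := Units.ext (by simp)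
  rw [cc_of_ne hx, cc_of_ne (zpow_ne_zero n hx), h1, cl_zpow]

theorem cc_pow {x : ℂ} (hx : x ≠ 0) (n : ℕ) : cc (x ^ n) = (n : ℚ) • cc x := by
  have h := cc_zpow hx n
  rw [zpow_natCast] at h
  rw [h, Int.cast_natCast]

theorem cc_inv {x : ℂ} (hx : x ≠ 0) : cc x⁻¹ = -cc x := by
  have h := cc_zpow hx (-1)
  rw [zpow_neg_one] at h
  rw [h, Int.cast_neg, Int.cast_one, neg_smul, one_smul]

theorem cc_prod {ι : Type} (s : Finset ι) (f : ι → ℂ) (h : ∀ i ∈ s, f i ≠ 0) : cc (∏ i ∈ s, f i) = ∑ i ∈ s, cc (f i) := by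
  classical
  induction s using Finset.induction_on with
  | empty => rw [Finset.prod_empty, Finset.sum_empty, cc_one]
  | insert a s ha ih =>
    rw [Finset.prod_insert ha, Finset.sum_insert ha,
      cc_mul (h a (Finset.mem_insert_self a s)) (Finset.prod_ne_zero_iff.2 fun i hi => h i (Finset.mem_insert_of_mem hi)),
      ih fun i hi => h i (Finset.mem_insert_of_mem hi)]

theorem cc_eq_zero {z : ℂ} (hz : z ≠ 0) : cc z = 0 ↔ ∃ N : ℕ, 0 < N ∧ z ^ N = 1 := by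
  rw [cc_of_ne hz, cl_eq_zero]
  refine exists_congr fun N => and_congr_right fun _ => ?_
  rw [Units.ext_iff, Units.val_pow_eq_pow_val, Units.val_mk0, Units.val_one]

theorem act_cc (τ : ℂ ≃+* ℂ) (z : ℂ) : act τ (cc z) = cc (τ z) := by
  rcases eq_or_ne z 0 with rfl | h
  · rw [cc_zero, map_zero, map_zero, cc_zero]
  · have h' : τ z ≠ 0 := (map_ne_zero τ).2 h
    rw [cc_of_ne h, cc_of_ne h', act_cl]
    exact congrArg cl (Units.ext rfl)

/-- The classes of the conjugates. -/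
def orb (z : ℂ) : Set UU := Set.range fun τ : ℂ ≃+* ℂ => cc (τ z)

theorem mem_orb (z : ℂ) : cc z ∈ orb z := ⟨1, rfl⟩

theorem orb_stable (z : ℂ) (g : ℂ ≃+* ℂ) (t : UU) (ht : t ∈ orb z) : act g t ∈ orb z := by
  obtain ⟨τ, rfl⟩ := ht
  exact ⟨g * τ, (act_cc g (τ z)).symm⟩

theorem root_conj {z : ℂ} {f : ℚ[X]} (hz : aeval z f = 0) (τ : ℂ ≃+* ℂ) : aeval (τ z) f = 0 := by
  have h1 : aeval (τ z) f = τ (aeval z f) := by
    have h2 := Polynomial.aeval_algHom_apply ((τ : ℂ →+* ℂ).toRatAlgHom) z f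
    exact h2
  rw [h1, hz, map_zero]

theorem orb_sub {z : ℂ} {f : ℚ[X]} (hf : f ≠ 0) (hz : aeval z f = 0) : orb z ⊆ cc '' (f.rootSet ℂ) := by
  rintro _ ⟨τ, rfl⟩
  exact ⟨τ z, mem_rootSet.2 ⟨hf, root_conj hz τ⟩, rfl⟩

theorem orb_finite {z : ℂ} {f : ℚ[X]} (hf : f ≠ 0) (hz : aeval z f = 0) : (orb z).Finite :=
  ((rootSet_finite f ℂ).image cc).subset (orb_sub hf hz)

theorem orb_card {z : ℂ} {f : ℚ[X]} (hf : f ≠ 0) (hz : aeval z f = 0) : (orb z).ncard ≤ f.natDegree := by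
  refine (Set.ncard_le_ncard (orb_sub hf hz) ((rootSet_finite f ℂ).image cc)).trans ?_
  refine (Set.ncard_image_le (rootSet_finite f ℂ)).trans ?_
  rw [rootSet_def, Set.ncard_coe_finset]
  refine (Multiset.toFinset_card_le _).trans ?_
  exact (card_roots' _).trans (natDegree_map_le)

/-- Vectors in the span of the classes of a set of numbers closed under inverses. -/
theorem mem_span_cc {T : Set ℂ} (h0 : ∀ z ∈ T, z ≠ 0) (hinv : ∀ z ∈ T, z⁻¹ ∈ T) {v : UU}
    (hv : v ∈ Submodule.span ℚ (cc '' T)) :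
    ∃ (N : ℕ) (x : ℂ), 0 < N ∧ x ≠ 0 ∧ x ∈ Submonoid.closure T ∧ x⁻¹ ∈ Submonoid.closure T ∧ (N : ℚ) • v = cc x := by
  induction hv using Submodule.span_induction with
  | mem v hv =>
    obtain ⟨z, hz, rfl⟩ := hv
    exact ⟨1, z, one_pos, h0 z hz, Submonoid.subset_closure hz, Submonoid.subset_closure (hinv z hz),
      by rw [Nat.cast_one, one_smul]⟩
  | zero => exact ⟨1, 1, one_pos, one_ne_zero, one_mem _, by rw [inv_one]; exact one_mem _, by rw [smul_zero, cc_one]⟩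
  | add v w _ _ hv hw =>
    obtain ⟨N, x, hN, hx0, hx, hxi, h1⟩ := hv
    obtain ⟨M, y, hM, hy0, hy, hyi, h2⟩ := hw
    refine ⟨N * M, x ^ M * y ^ N, Nat.mul_pos hN hM, mul_ne_zero (pow_ne_zero _ hx0) (pow_ne_zero _ hy0),
      mul_mem (pow_mem hx _) (pow_mem hy _), ?_, ?_⟩
    · rw [mul_inv, ← inv_pow, ← inv_pow]
      exact mul_mem (pow_mem hxi _) (pow_mem hyi _)
    · rw [cc_mul (pow_ne_zero _ hx0) (pow_ne_zero _ hy0), cc_pow hx0, cc_pow hy0, ← h1, ← h2, smul_smul, smul_smul,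
        smul_add, Nat.cast_mul, mul_comm (M : ℚ)]
  | smul c v _ hv =>
    obtain ⟨N, x, hN, hx0, hx, hxi, h1⟩ := hv
    refine ⟨N * c.den, x ^ c.num, Nat.mul_pos hN c.den_pos, zpow_ne_zero _ hx0, ?_, ?_, ?_⟩
    · rcases Int.eq_nat_or_neg c.num with ⟨k, hk | hk⟩
      · rw [hk, zpow_natCast]
        exact pow_mem hx k
      · rw [hk, zpow_neg, zpow_natCast, ← inv_pow]
        exact pow_mem hxi k
    · rcases Int.eq_nat_or_neg c.num with ⟨k, hk | hk⟩
      · rw [hk, zpow_natCast, ← inv_pow]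
        exact pow_mem hxi k
      · rw [hk, zpow_neg, zpow_natCast, inv_inv]
        exact pow_mem hx k
    · rw [cc_zpow hx0, ← h1, smul_smul, smul_smul, Nat.cast_mul, mul_assoc, mul_comm (c.den : ℚ), Rat.mul_den_eq_num,
        mul_comm]

end TSF
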