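import Pool.Agent.Lib.MP_021685_agTAF.FD

/-! Definition used in the statement of `MP_021685_ag.AlmostAllLifts`: the varieties `Z` which have nothing in common with an
abelian variety `A` over a finite field. -/

set_option autoImplicit false

namespace TSF

open Polynomial

/-- There are `n` conjugates of `u` which are multiplicatively independent modulo `Q`. -/
def RankGE (Q n : ℕ) (u : ℂ) : Prop :=
  ∃ σ : Fin n → (ℂ ≃+* ℂ), ∀ (m : Fin n → ℤ) (b : ℤ), ∏ i, (σ i u) ^ m i = (Q : ℂ) ^ b → ∀ i, m i = 0

/-- The property of a number `y` (a Frobenius eigenvalue of a variety `Z` over the field with `Q` elements) with respect to `P`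
(the Frobenius polynomial of an abelian variety `A`): for every product `u` of roots of `P`, no power of which is a power of `Q`,
there is a number `n` of conjugates of `u` which are multiplicatively independent modulo `Q`, such that a power of `y` is a
product of numbers which are roots of rational polynomials of degree less than `2 n`, or of angle rank less than `n`, or with a
splitting field which contains no power of `u`. -/
def SmallFor (Q : ℕ) (P : ℤ[X]) (y : ℂ) : Prop :=
  ∀ u ∈ Submonoid.closure {z : ℂ | aeval z P = 0}, (∀ (N : ℕ) (b : ℤ), 0 < N → u ^ N ≠ (Q : ℂ) ^ b) →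
    ∃ n : ℕ, RankGE Q n u ∧ TAF.Small Q {z : ℂ | ∃ M : ℕ, 0 < M ∧ z = u ^ M} n y

end TSF
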