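import Pool.Agent.Lib.MP_021685_agSF.SF3
import Pool.Agent.Lib.MP_021685_agSF.SFD
import Pool.Agent.Lib.MP_021685_agSP.SPP4

/-! The three kinds of numbers. -/

set_option autoImplicit false

namespace TSF

open Polynomial

/-- The complex conjugation as an automorphism. -/
noncomputable def cj : ℂ ≃+* ℂ := starRingAut

theorem cj_apply (z : ℂ) : cj z = starRingEnd ℂ z := rfl

theorem odd_of_span {w : ℂ} (hodd : ∀ τ : ℂ ≃+* ℂ, starRingEnd ℂ (τ w) * τ w = 1) {v : UU}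
    (hv : v ∈ Submodule.span ℚ (orb w)) : act cj v = -v := by
  induction hv using Submodule.span_induction with
  | mem t ht =>
    obtain ⟨τ, rfl⟩ := ht
    have h0 : τ w ≠ 0 := right_ne_zero_of_mul (by rw [hodd τ]; exact one_ne_zero)
    show act cj (cc (τ w)) = -cc (τ w)
    rw [act_cc, cj_apply, eq_inv_of_mul_eq_one_left (hodd τ), cc_inv h0]
  | zero => rw [map_zero, neg_zero]
  | add x y _ _ hx hy => rw [map_add, hx, hy, neg_add]
  | smul c x _ hx => rw [map_smul, hx, smul_neg]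

theorem lin_of_rank {Q n : ℕ} {u : ℂ} (hu : u ≠ 0) {σ : Fin n → (ℂ ≃+* ℂ)}
    (h : ∀ (m : Fin n → ℤ) (b : ℤ), ∏ i, (σ i u) ^ m i = (Q : ℂ) ^ b → ∀ i, m i = 0) :
    LinearIndependent ℚ fun i => cc (σ i u) := by
  rw [← LinearIndependent.iff_fractionRing ℤ ℚ, Fintype.linearIndependent_iff]
  intro m hm
  have h0 : ∀ i, σ i u ≠ 0 := fun i => (map_ne_zero (σ i)).2 hu
  have h1 : cc (∏ i, (σ i u) ^ m i) = 0 := by
    rw [cc_prod _ _ fun i _ => zpow_ne_zero _ (h0 i), ← hm]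
    refine Finset.sum_congr rfl fun i _ => ?_
    rw [cc_zpow (h0 i), Int.cast_smul_eq_zsmul]
  obtain ⟨K, hK, h2⟩ := (cc_eq_zero (Finset.prod_ne_zero_iff.2 fun i _ => zpow_ne_zero _ (h0 i))).1 h1
  intro i
  have h3 := h (fun i => m i * K) 0 (by
    rw [zpow_zero, ← h2, ← Finset.prod_pow]
    exact Finset.prod_congr rfl fun i _ => by rw [zpow_mul, zpow_natCast]) i
  have h4 : m i * (K : ℤ) = 0 := h3
  rcases mul_eq_zero.1 h4 with h5 | h5
  · exact h5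
  · exact absurd h5 (by exact_mod_cast hK.ne')

section

variable {Q n : ℕ} {W : Submodule ℚ UU} {π : UU →ₗ[ℚ] UU} {ρ u : ℂ} {f : ℚ[X]} {σ : Fin n → (ℂ ≃+* ℂ)}

theorem no_degree (hf : f ≠ 0) (hρ : aeval ρ f = 0)
    (hW : W ≤ Submodule.span ℚ (Set.range fun τ : ℂ ≃+* ℂ => π (cc (τ ρ))))
    (hodd : ∀ τ : ℂ ≃+* ℂ, π (cc (cj (τ ρ))) = -π (cc (τ ρ)))
    (hu : ∀ i, cc (σ i u) ∈ W) (hlin : LinearIndependent ℚ fun i => cc (σ i u)) : 2 * n ≤ f.natDegree := by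
  classical
  have hO : (Set.range fun τ : ℂ ≃+* ℂ => π (cc (τ ρ))) = π '' orb ρ := by
    unfold orb
    rw [← Set.range_comp]
    rfl
  have hfin : (π '' orb ρ).Finite := (orb_finite hf hρ).image π
  have hcard : (hfin.toFinset).card ≤ f.natDegree := by
    rw [← Set.ncard_eq_toFinset_card _ hfin]
    exact (Set.ncard_image_le (orb_finite hf hρ)).trans (orb_card hf hρ)
  have h1 := finrank_pm hfin.toFinset (fun t ht => by
    rw [Set.Finite.mem_toFinset, ← hO] at ht ⊢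
    obtain ⟨τ, rfl⟩ := ht
    exact ⟨cj * τ, hodd τ⟩)
  rw [Set.Finite.coe_toFinset] at h1
  rw [hO] at hW
  have hfd : FiniteDimensional ℚ (Submodule.span ℚ (π '' orb ρ)) := FiniteDimensional.span_of_finite ℚ hfin
  have h2 : n ≤ Module.finrank ℚ (Submodule.span ℚ (π '' orb ρ)) := by
    have h3 : LinearIndependent ℚ (fun i => (⟨cc (σ i u), hW (hu i)⟩ : Submodule.span ℚ (π '' orb ρ))) :=
      LinearIndependent.of_comp (Submodule.subtype _) hlin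
    have h4 := h3.fintype_card_le_finrank
    rwa [Fintype.card_fin] at h4
  omega

theorem no_rank (hρ0 : ρ ≠ 0) (hρ : aeval ρ f = 0)
    (hW : W ≤ Submodule.span ℚ (Set.range fun τ : ℂ ≃+* ℂ => π (cc (τ ρ)))) (hQ : 0 < Q) (hπQ : π (cc (Q : ℂ)) = 0)
    (hu : ∀ i, cc (σ i u) ∈ W) (hlin : LinearIndependent ℚ fun i => cc (σ i u)) : ¬ TAR.RankLT Q n f := by
  classical
  intro hr
  have hQC : (Q : ℂ) ≠ 0 := Nat.cast_ne_zero.2 hQ.ne'
  set T : Set ℂ := {z : ℂ | z ≠ 0 ∧ (aeval z f = 0 ∨ aeval z⁻¹ f = 0)} with hT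
  have h0 : ∀ z ∈ T, z ≠ 0 := fun z hz => hz.1
  have hinv : ∀ z ∈ T, z⁻¹ ∈ T := fun z hz => ⟨inv_ne_zero hz.1, by rw [inv_inv]; exact hz.2.symm⟩
  have hmap : Submodule.span ℚ (Set.range fun τ : ℂ ≃+* ℂ => π (cc (τ ρ))) ≤
      Submodule.map π (Submodule.span ℚ (cc '' T)) := by
    rw [Submodule.span_le]
    rintro _ ⟨τ, rfl⟩
    exact Submodule.mem_map_of_mem (Submodule.subset_span ⟨τ ρ, ⟨(map_ne_zero τ).2 hρ0, Or.inl (root_conj hρ τ)⟩, rfl⟩)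
  have hex : ∀ i, ∃ (N : ℕ) (x : ℂ), 0 < N ∧ x ≠ 0 ∧ x ∈ Submonoid.closure T ∧ π (cc x) = (N : ℚ) • cc (σ i u) := by
    intro i
    obtain ⟨s, hs, hs'⟩ := hmap (hW (hu i))
    obtain ⟨N, x, hN, hx0, hx, -, h1⟩ := mem_span_cc h0 hinv hs
    exact ⟨N, x, hN, hx0, hx, by rw [← h1, map_smul, hs']⟩
  choose N x hN hx0 hx hπx using hex
  obtain ⟨m, b, hm, hb⟩ := hr x hx
  have h1 : ∑ i, ((m i : ℚ) * (N i : ℚ)) • cc (σ i u) = 0 := by
    have h2 : π (cc (∏ j, x j ^ m j)) = π (cc ((Q : ℂ) ^ b)) := by rw [hb]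
    rw [cc_prod _ _ fun i _ => zpow_ne_zero _ (hx0 i), map_sum, cc_zpow hQC, map_smul, hπQ, smul_zero] at h2
    rw [← h2]
    refine Finset.sum_congr rfl fun i _ => ?_
    rw [cc_zpow (hx0 i), map_smul, hπx, smul_smul]
  have h2 := Fintype.linearIndependent_iff.1 hlin _ h1
  apply hm
  funext i
  have h3 := h2 i
  rcases mul_eq_zero.1 h3 with h4 | h4
  · exact_mod_cast h4
  · exact absurd h4 (Nat.cast_ne_zero.2 (hN i).ne')

theorem no_field {fu : ℚ[X]} (hfu : fu ≠ 0) (hfu0 : aeval u fu = 0) (hu0 : u ≠ 0) (hf : f ≠ 0) (hρ : aeval ρ f = 0)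
    (hW : W ≤ Submodule.span ℚ (Set.range fun τ : ℂ ≃+* ℂ => π (cc (τ ρ))))
    (hequiv : ∀ (τ : ℂ ≃+* ℂ) (v : UU), v ∈ Submodule.span ℚ (orb ρ) → π (act τ v) = act τ (π v)) (hu : cc u ∈ W) :
    ∃ M : ℕ, 0 < M ∧ u ^ M ∈ IntermediateField.adjoin ℚ (f.rootSet ℂ) := by
  classical
  set L := IntermediateField.adjoin ℚ (f.rootSet ℂ) with hL
  have hfix : ∀ τ : ℂ ≃+* ℂ, (∀ z ∈ L, τ z = z) → cc (τ u) = cc u := by
    intro τ hτ
    have h1 : ∀ v ∈ Submodule.span ℚ (Set.range fun τ : ℂ ≃+* ℂ => π (cc (τ ρ))), act τ v = v := by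
      intro v hv
      induction hv using Submodule.span_induction with
      | mem t ht =>
        obtain ⟨g, rfl⟩ := ht
        show act τ (π (cc (g ρ))) = π (cc (g ρ))
        rw [← hequiv τ _ (Submodule.subset_span ⟨g, rfl⟩), act_cc, hτ (g ρ)]
        exact IntermediateField.subset_adjoin ℚ _ (mem_rootSet.2 ⟨hf, root_conj hρ g⟩)
      | zero => rw [map_zero]
      | add x y _ _ hx hy => rw [map_add, hx, hy]
      | smul c x _ hx => rw [map_smul, hx]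
    rw [← act_cc, h1 _ (hW hu)]
  -- a common exponent
  have hfinU : (fu.rootSet ℂ).Finite := rootSet_finite fu ℂ
  have hex : ∀ z : ℂ, ∃ K : ℕ, 0 < K ∧ ((∃ τ : ℂ ≃+* ℂ, (∀ x ∈ L, τ x = x) ∧ τ u = z) → z ^ K = u ^ K) := by
    intro z
    by_cases h : ∃ τ : ℂ ≃+* ℂ, (∀ x ∈ L, τ x = x) ∧ τ u = z
    · obtain ⟨τ, hτ, rfl⟩ := h
      have h1 : cc (τ u * u⁻¹) = 0 := by
        rw [cc_mul ((map_ne_zero τ).2 hu0) (inv_ne_zero hu0), cc_inv hu0, hfix τ hτ, add_neg_cancel]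
      obtain ⟨K, hK, h2⟩ := (cc_eq_zero (mul_ne_zero ((map_ne_zero τ).2 hu0) (inv_ne_zero hu0))).1 h1
      refine ⟨K, hK, fun _ => ?_⟩
      rw [mul_pow, inv_pow] at h2
      exact eq_of_mul_inv_eq_one h2
    · exact ⟨1, one_pos, fun h' => absurd h' h⟩
  choose K hK hKz using hex
  set M := ∏ z ∈ hfinU.toFinset, K z with hM
  have hM0 : 0 < M := Finset.prod_pos fun z _ => hK z
  refine ⟨M, hM0, ?_⟩
  have halg : Algebra.IsAlgebraic ℚ L := by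
    refine IntermediateField.isAlgebraic_adjoin fun z hz => ?_
    exact (isAlgebraic_iff_isIntegral).1 ⟨f, hf, (mem_rootSet.1 hz).2⟩
  have hint : IsIntegral ℚ (u ^ M) := ((isAlgebraic_iff_isIntegral).1 ⟨fu, hfu, hfu0⟩).pow M
  refine TSP.mem_of_fixed L (u ^ M) hint fun τ hτ => ?_
  rw [map_pow]
  have hmem : τ u ∈ hfinU.toFinset := by
    rw [Set.Finite.mem_toFinset]
    exact mem_rootSet.2 ⟨hfu, root_conj hfu0 τ⟩
  have h1 := hKz (τ u) ⟨τ, hτ, rfl⟩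
  obtain ⟨M', hM'⟩ := Finset.dvd_prod_of_mem K hmem
  rw [hM, hM', pow_mul, pow_mul, h1]

end

end TSF
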