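import Pool.Agent.Lib.MP_021685_agSF.SF4

/-! The choice of `u`. -/

set_option autoImplicit false

namespace TSF

open Polynomial

theorem list_cc {π : UU →ₗ[ℚ] UU} (l : List ℂ) (h0 : ∀ ρ ∈ l, ρ ≠ 0) (h : ∀ ρ ∈ l, π (cc ρ) = 0) : π (cc l.prod) = 0 := by
  induction l with
  | nil => rw [List.prod_nil, cc_one, map_zero]
  | cons a l ih =>
    have h1 : l.prod ≠ 0 := by
      intro h2
      exact h0 0 (List.mem_cons_of_mem a (List.prod_eq_zero_iff.1 h2)) rfl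
    rw [List.prod_cons, cc_mul (h0 a List.mem_cons_self) h1, map_add, h a List.mem_cons_self,
      ih (fun ρ hρ => h0 ρ (List.mem_cons_of_mem a hρ)) (fun ρ hρ => h ρ (List.mem_cons_of_mem a hρ)), add_zero]

theorem key {Q : ℕ} (hQ : 0 < Q) {w : ℂ} {f₀ : ℚ[X]} (hf₀ : f₀ ≠ 0) (hw₀ : aeval w f₀ = 0)
    (hodd : ∀ τ : ℂ ≃+* ℂ, starRingEnd ℂ (τ w) * τ w = 1) (hw : cc w ≠ 0) :
    ∃ u ∈ Submonoid.closure (Set.range fun τ : ℂ ≃+* ℂ => τ w), u ≠ 0 ∧ cc u ≠ 0 ∧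
      ∀ (n : ℕ) (y : ℂ) (b : ℤ), RankGE Q n u → TAF.Small Q {z | ∃ M : ℕ, 0 < M ∧ z = u ^ M} n y →
        w * y ^ 2 = (Q : ℂ) ^ b → False := by
  classical
  have hQC : (Q : ℂ) ≠ 0 := Nat.cast_ne_zero.2 hQ.ne'
  have hw0 : w ≠ 0 := fun h => hw (by rw [h, cc_zero])
  have hT₀f := orb_finite hf₀ hw₀
  have hne : Submodule.span ℚ (orb w) ≠ ⊥ := by
    intro h
    apply hw
    have h1 : cc w ∈ Submodule.span ℚ (orb w) := Submodule.subset_span (mem_orb w)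
    rw [h] at h1
    exact (Submodule.mem_bot ℚ).1 h1
  obtain ⟨W, hW1, hW2, hW3, hW4⟩ := exists_minimal act hT₀f (orb_stable w) hne
  obtain ⟨v₀, hv₀, hv₀0⟩ := Submodule.exists_mem_ne_zero_of_ne_bot hW2
  have horb : orb w = cc '' (Set.range fun τ : ℂ ≃+* ℂ => τ w) := by
    unfold orb
    rw [← Set.range_comp]
    rfl
  have h0T : ∀ z ∈ Set.range (fun τ : ℂ ≃+* ℂ => τ w), z ≠ 0 := by
    rintro _ ⟨τ, rfl⟩
    exact (map_ne_zero τ).2 hw0
  have hinvT : ∀ z ∈ Set.range (fun τ : ℂ ≃+* ℂ => τ w), z⁻¹ ∈ Set.range (fun τ : ℂ ≃+* ℂ => τ w) := by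
    rintro _ ⟨τ, rfl⟩
    refine ⟨cj * τ, ?_⟩
    show starRingEnd ℂ (τ w) = (τ w)⁻¹
    exact eq_inv_of_mul_eq_one_left (hodd τ)
  have hv₀' : v₀ ∈ Submodule.span ℚ (cc '' (Set.range fun τ : ℂ ≃+* ℂ => τ w)) := by
    rw [← horb]
    exact hW1 hv₀
  obtain ⟨N₀, u, hN₀, hu0, hu, -, hNu⟩ := mem_span_cc h0T hinvT hv₀'
  have hcuW : cc u ∈ W := by
    rw [← hNu]
    exact W.smul_mem _ hv₀
  have hcu0 : cc u ≠ 0 := by
    rw [← hNu]
    exact smul_ne_zero (Nat.cast_ne_zero.2 hN₀.ne') hv₀0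
  have hualg : ∀ x ∈ Submonoid.closure (Set.range fun τ : ℂ ≃+* ℂ => τ w), IsAlgebraic ℚ x := by
    intro x hx
    induction hx using Submonoid.closure_induction with
    | mem x hx =>
      obtain ⟨τ, rfl⟩ := hx
      exact ⟨f₀, hf₀, root_conj hw₀ τ⟩
    | one => exact isAlgebraic_one
    | mul x y _ _ hx hy => exact hx.mul hy
  obtain ⟨fu, hfu, hfu0⟩ := hualg u hu
  refine ⟨u, hu, hu0, hcu0, fun n y b hn hy hrel => ?_⟩
  have hy0 : y ≠ 0 := by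
    intro h
    rw [h, zero_pow two_ne_zero, mul_zero] at hrel
    exact zpow_ne_zero b hQC hrel.symm
  obtain ⟨N, hN, hyN⟩ := hy
  obtain ⟨l, hl, hprod⟩ := Submonoid.exists_list_of_mem_closure hyN
  have hl0 : ∀ ρ ∈ l, ρ ≠ 0 := by
    intro ρ hρ h
    rw [h] at hρ
    exact pow_ne_zero N hy0 (by rw [← hprod]; exact List.prod_eq_zero hρ)
  -- the finite stable set
  set T : Set UU := orb w ∪ (orb (Q : ℂ) ∪ ⋃ ρ ∈ {ρ | ρ ∈ l}, orb ρ) with hT
  have hQroot : aeval (Q : ℂ) (X - C (Q : ℚ)) = 0 := by simp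
  have hTf : T.Finite := by
    refine hT₀f.union ((orb_finite (X_sub_C_ne_zero (Q : ℚ)) hQroot).union ?_)
    refine Set.Finite.biUnion (List.finite_toSet l) fun ρ hρ => ?_
    obtain ⟨f, hf, hfρ, -⟩ := hl ρ hρ
    exact orb_finite hf hfρ
  have hTs : ∀ g, ∀ t ∈ T, act g t ∈ T := by
    rintro g t (ht | ht | ht)
    · exact Or.inl (orb_stable w g t ht)
    · exact Or.inr (Or.inl (orb_stable _ g t ht))
    · obtain ⟨ρ, hρ, ht⟩ := Set.mem_iUnion₂.1 ht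
      exact Or.inr (Or.inr (Set.mem_iUnion₂.2 ⟨ρ, hρ, orb_stable ρ g t ht⟩))
  obtain ⟨π, hπW, hπid, hπe⟩ := exists_proj act hTf hTs (hW1.trans (Submodule.span_mono Set.subset_union_left)) hW3
  have hcW : ∀ v ∈ W, act cj v = -v := fun v hv => odd_of_span hodd (hW1 hv)
  have hπQ : π (cc (Q : ℂ)) = 0 := by
    have h1 : act cj (cc (Q : ℂ)) = cc (Q : ℂ) := by
      rw [act_cc, map_natCast]
    have h2 := hπe cj (cc (Q : ℂ)) (Submodule.subset_span (Or.inr (Or.inl (mem_orb _))))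
    rw [h1, hcW _ (hπW _)] at h2
    have h3 : (2 : ℚ) • π (cc (Q : ℂ)) = 0 := by
      rw [two_smul]
      nth_rewrite 1 [h2]
      exact neg_add_cancel _
    exact (smul_eq_zero.1 h3).resolve_left two_ne_zero
  have hπw : π (cc w) ≠ 0 := by
    intro h
    have h1 : ∀ v ∈ Submodule.span ℚ (orb w), π v = 0 := by
      intro v hv
      induction hv using Submodule.span_induction with
      | mem t ht =>
        obtain ⟨τ, rfl⟩ := ht
        show π (cc (τ w)) = 0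
        rw [← act_cc, hπe τ _ (Submodule.subset_span (Or.inl (mem_orb w))), h, map_zero]
      | zero => rw [map_zero]
      | add x y _ _ hx hy => rw [map_add, hx, hy, add_zero]
      | smul c x _ hx => rw [map_smul, hx, smul_zero]
    exact hv₀0 (by rw [← hπid v₀ hv₀, h1 v₀ (hW1 hv₀)])
  have hπy : π (cc y) ≠ 0 := by
    intro h
    apply hπw
    have h1 : π (cc (w * y ^ 2)) = π (cc ((Q : ℂ) ^ b)) := by rw [hrel]
    rw [cc_mul hw0 (pow_ne_zero 2 hy0), cc_pow hy0, cc_zpow hQC, map_add, map_smul, map_smul, h, hπQ, smul_zero,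
      smul_zero, add_zero] at h1
    exact h1
  have hex : ∃ ρ ∈ l, π (cc ρ) ≠ 0 := by
    by_contra hcon
    push Not at hcon
    have h1 := list_cc l hl0 hcon
    rw [hprod, cc_pow hy0, map_smul] at h1
    rcases smul_eq_zero.1 h1 with h2 | h2
    · exact Nat.cast_ne_zero.2 hN.ne' h2
    · exact hπy h2
  obtain ⟨ρ, hρl, hπρ⟩ := hex
  obtain ⟨f, hf, hfρ, hcases⟩ := hl ρ hρl
  have horbρ : ∀ v ∈ Submodule.span ℚ (orb ρ), v ∈ Submodule.span ℚ T := fun v hv =>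
    Submodule.span_mono (fun t ht => Or.inr (Or.inr (Set.mem_iUnion₂.2 ⟨ρ, hρl, ht⟩))) hv
  have hmemρ : ∀ τ : ℂ ≃+* ℂ, cc (τ ρ) ∈ Submodule.span ℚ T := fun τ => horbρ _ (Submodule.subset_span ⟨τ, rfl⟩)
  have hW' : Submodule.span ℚ (Set.range fun τ : ℂ ≃+* ℂ => π (cc (τ ρ))) = W := by
    refine hW4 _ ?_ ?_ ?_
    · rw [Submodule.span_le]
      rintro _ ⟨τ, rfl⟩
      exact hπW _
    · intro h
      apply hπρ
      have h1 : π (cc ρ) ∈ Submodule.span ℚ (Set.range fun τ : ℂ ≃+* ℂ => π (cc (τ ρ))) :=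
        Submodule.subset_span ⟨1, rfl⟩
      rw [h] at h1
      exact (Submodule.mem_bot ℚ).1 h1
    · intro g v hv
      refine span_stable act ?_ g hv
      rintro g' _ ⟨τ, rfl⟩
      refine ⟨g' * τ, ?_⟩
      show π (cc (g' (τ ρ))) = act g' (π (cc (τ ρ)))
      rw [← hπe g' _ (hmemρ τ), act_cc]
  obtain ⟨σ, hσ⟩ := hn
  have hlin := lin_of_rank hu0 hσ
  have huW : ∀ i, cc (σ i u) ∈ W := fun i => by
    rw [← act_cc]
    exact hW3 _ _ hcuW
  rcases hcases with h1 | h1 | h1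
  · have h2 := no_degree hf hfρ hW'.ge (fun τ => by
      rw [← act_cc, hπe cj _ (hmemρ τ), hcW _ (hπW _)]) huW hlin
    omega
  · exact no_rank (hl0 ρ hρl) hfρ hW'.ge hQ hπQ huW hlin h1
  · obtain ⟨M, hM, hM'⟩ := no_field hfu hfu0 hu0 hf hfρ hW'.ge (fun τ v hv => hπe τ v (horbρ v hv)) hcuW
    exact h1 (u ^ M) ⟨M, hM, rfl⟩ hM'

end TSF
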