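import Pool.Agent.Lib.MP_021685_agSF.SF5
import Pool.Agent.Lib.MP_021685_agTM.RR
import Pool.Agent.Lib.MP_021685_agTWF.W8
import Pool.Agent.Lib.MP_021685_agTAF.F2

/-! Abelian varieties over finite fields without exotic Tate classes on their powers: the products with other varieties. -/

set_option autoImplicit false

namespace TSF

open Polynomial TAF TPM

private theorem SF6_roots {P : ℤ[X]} (hm : P.Monic) : ∃ (n : ℕ) (lam : Fin n → ℂ),
    P.map (Int.castRingHom ℂ) = ∏ i, (X - C (lam i)) ∧ ∀ z : ℂ, aeval z P = 0 → ∃ i, lam i = z := by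
  classical
  set R : Multiset ℂ := (P.map (Int.castRingHom ℂ)).roots with hR
  have hmon : (P.map (Int.castRingHom ℂ)).Monic := hm.map _
  have hsplit : (R.map fun a => X - C a).prod = P.map (Int.castRingHom ℂ) :=
    ((IsAlgClosed.splits (P.map (Int.castRingHom ℂ))).eq_prod_roots_of_monic hmon).symm
  let L : List ℂ := R.toList
  let lam : Fin L.length → ℂ := fun i => L.get i
  have hP : P.map (Int.castRingHom ℂ) = ∏ i, (X - C (lam i)) := by
    rw [← hsplit, ← Multiset.coe_toList R, Multiset.map_coe, Multiset.prod_coe]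
    show _ = ∏ i : Fin L.length, (X - C (L.get i))
    rw [← List.prod_ofFn, ← List.ofFn_get (L.map fun a => X - C a)]
    congr 1
    apply List.ext_get
    · simp
    · intro n h1 h2
      simp [L]
  refine ⟨L.length, lam, hP, fun z hz => ?_⟩
  have h1 : z ∈ R := by
    rw [hR, mem_roots hmon.ne_zero, IsRoot.def, eval_map, ← algebraMap_int_eq]
    exact hz
  have h2 : z ∈ L := Multiset.mem_toList.2 h1
  obtain ⟨n, hn⟩ := List.get_of_mem h2
  exact ⟨n, hn⟩

private theorem SF6_match {q : ℕ} {P : ℤ[X]} (hF : TI.Full q P) (hm : P.Monic) {T : Type} [Fintype T] (z : T → ℂ)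
    (hz : ∀ t, aeval (z t) P = 0) (hs : ∏ t, z t = ((Real.sqrt q : ℝ) : ℂ) ^ Fintype.card T) :
    ∃ (m : ℕ) (e : Fin m ⊕ Fin m ≃ T), ∀ i, z (e (Sum.inl i)) * z (e (Sum.inr i)) = (q : ℂ) := by
  classical
  obtain ⟨n, lam, hP, hmem⟩ := SF6_roots hm
  choose i hi using fun t => hmem (z t) (hz t)
  let e := Fintype.equivFin T
  obtain ⟨m, e', he'⟩ := TWF.match_of_full hF hP (fun a : Fin (Fintype.card T) => i (e.symm a)) (by
    rw [← hs]
    refine (Finset.prod_congr rfl fun a _ => hi (e.symm a)).trans ?_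
    exact Equiv.prod_comp e.symm z)
  refine ⟨m, e'.trans e.symm, fun x => ?_⟩
  have h1 := he' x
  rw [hi, hi] at h1
  exact h1

theorem sq_ne_of_full {q : ℕ} {P : ℤ[X]} (hF : TI.Full q P) (hm : P.Monic) {z : ℂ} (hz : aeval z P = 0) :
    z ^ 2 ≠ (q : ℂ) := by
  classical
  obtain ⟨n, lam, hP, hmem⟩ := SF6_roots hm
  obtain ⟨i, rfl⟩ := hmem z hz
  intro hi
  have hchar : (Matrix.toLin' (Matrix.diagonal lam)).charpoly = P.map (Int.castRingHom ℂ) := by
    rw [Matrix.charpoly_toLin', Matrix.charpoly_diagonal, hP]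
  have hs2 : ((Real.sqrt q : ℝ) : ℂ) ^ 2 = (q : ℂ) := by
    rw [← Complex.ofReal_pow, Real.sq_sqrt (Nat.cast_nonneg q), Complex.ofReal_natCast]
  have happ : ∀ (v : Fin n → ℂ) (j : Fin n), Matrix.toLin' (Matrix.diagonal lam) v j = lam j * v j := by
    intro v j
    rw [Matrix.toLin'_apply, Matrix.mulVec_diagonal]
  have hT : TI.IsTate q 2 1 (Matrix.toLin' (Matrix.diagonal lam)) ((MultilinearMap.mkPiAlgebra ℂ (Fin 1) ℂ).compLinearMap
      fun _ => (LinearMap.proj i : (Fin n → ℂ) →ₗ[ℂ] ℂ)) := by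
    intro v
    rw [MultilinearMap.compLinearMap_apply, MultilinearMap.compLinearMap_apply, MultilinearMap.mkPiAlgebra_apply,
      MultilinearMap.mkPiAlgebra_apply, Fin.prod_univ_one, Fin.prod_univ_one, mul_one, hs2, ← hi]
    show (Matrix.toLin' (Matrix.diagonal lam) ^ 2) (v 0) i = lam i ^ 2 * v 0 i
    rw [pow_two, Module.End.mul_apply, happ, happ]
    ring
  have hspan := hF (Fin n → ℂ) (Matrix.toLin' (Matrix.diagonal lam)) (diag_semisimple lam) hchar 2 1 two_pos _ hT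
  have hzero : ∀ T' ∈ Submodule.span ℂ {T' : MultilinearMap ℂ (fun _ : Fin 1 => Fin n → ℂ) ℂ |
      TI.IsProduct q 2 1 (Matrix.toLin' (Matrix.diagonal lam)) T'}, T' = 0 := by
    intro T' hT'
    induction hT' using Submodule.span_induction with
    | mem T₀ h =>
      obtain ⟨m, e, -, -, -⟩ := h
      have h1 := Fintype.card_congr e
      rw [Fintype.card_sum, Fintype.card_fin, Fintype.card_fin] at h1
      omega
    | zero => rfl
    | add x y _ _ hx hy => rw [hx, hy, add_zero]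
    | smul c x _ hx => rw [hx, smul_zero]
  have h1 := congrArg (fun T' : MultilinearMap ℂ (fun _ : Fin 1 => Fin n → ℂ) ℂ => T' fun _ => fun _ => 1) (hzero _ hspan)
  rw [MultilinearMap.compLinearMap_apply, MultilinearMap.mkPiAlgebra_apply, Fin.prod_univ_one] at h1
  exact one_ne_zero h1

/-- A relation between roots of `P` gives a matching. -/
theorem match_of_rel {Q : ℕ} (hQ : 0 < Q) {P : ℤ[X]} (hm : P.Monic) (hF : TI.Full Q P) {k D : ℕ} (hD : 0 < D)
    {z : Fin k → ℂ} (hz : ∀ a, aeval (z a) P = 0) (hz0 : ∀ a, z a ≠ 0)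
    (hprodQ : (∏ a, z a) ^ (2 * D) = (Q : ℂ) ^ (D * k)) :
    ∃ (m : ℕ) (e : Fin m ⊕ Fin m ≃ Fin k), ∀ i, z (e (Sum.inl i)) * z (e (Sum.inr i)) = (Q : ℂ) := by
  classical
  have hs2 : ((Real.sqrt Q : ℝ) : ℂ) ^ 2 = (Q : ℂ) := by
    rw [← Complex.ofReal_pow, Real.sq_sqrt (Nat.cast_nonneg Q), Complex.ofReal_natCast]
  let z' : Fin k × Fin (2 * D) → ℂ := fun t => z t.1
  have hprod : ∏ t, z' t = (∏ t, z t) ^ (2 * D) := by
    rw [Fintype.prod_prod_type, ← Finset.prod_pow]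
    refine Finset.prod_congr rfl fun t _ => ?_
    show ∏ _y : Fin (2 * D), z t = _
    rw [Finset.prod_const, Finset.card_univ, Fintype.card_fin]
  have hcard : Fintype.card (Fin k × Fin (2 * D)) = 2 * (D * k) := by
    rw [Fintype.card_prod, Fintype.card_fin, Fintype.card_fin]
    ring
  obtain ⟨m, e, he⟩ := SF6_match hF hm z' (fun t => hz t.1) (by
    rw [hprod, hprodQ, hcard, pow_mul ((Real.sqrt Q : ℝ) : ℂ), hs2])
  have hbal : Bal Q z := by
    have h1 : Bal Q z' := by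
      refine bal_of_pairing hQ ((e.symm.trans (Equiv.sumComm _ _)).trans e) fun t => ?_
      obtain ⟨x, rfl⟩ := e.surjective t
      rcases x with x | x
      · simp only [Equiv.trans_apply, Equiv.symm_apply_apply, Equiv.sumComm_apply, Sum.swap_inl]
        exact he x
      · simp only [Equiv.trans_apply, Equiv.symm_apply_apply, Equiv.sumComm_apply, Sum.swap_inr]
        rw [mul_comm]
        exact he x
    intro c
    have h2 : ∀ c : ℂ, Nat.card {t // z' t = c} = Nat.card {t // z t = c} * (2 * D) := by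
      intro c
      have h3 : {t // z' t = c} ≃ {t // z t = c} × Fin (2 * D) :=
        { toFun := fun t => (⟨t.1.1, t.2⟩, t.1.2)
          invFun := fun t => ⟨(t.1.1, t.2), t.1.2⟩
          left_inv := fun t => rfl
          right_inv := fun t => rfl }
      rw [Nat.card_congr h3, Nat.card_prod, Nat.card_fin]
    have h4 := h1 c
    rw [h2, h2] at h4
    exact Nat.eq_of_mul_eq_mul_right (by omega) h4
  refine TI.matching z (Q : ℂ) hz0 (fun a => sq_ne_of_full hF hm (hz a)) fun a => ?_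
  have h2 := hbal (z a)
  rw [Nat.card_eq_fintype_card, Nat.card_eq_fintype_card, Fintype.card_subtype, Fintype.card_subtype] at h2
  exact h2

private theorem SF6_zpow_sum {x : ℂ} (hx : x ≠ 0) {ι : Type} (s : Finset ι) (f : ι → ℤ) :
    x ^ (∑ i ∈ s, f i) = ∏ i ∈ s, x ^ f i := by
  classical
  induction s using Finset.induction_on with
  | empty => rw [Finset.sum_empty, Finset.prod_empty, zpow_zero]
  | insert a s ha ih => rw [Finset.sum_insert ha, Finset.prod_insert ha, zpow_add₀ hx, ih]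

/-- Multiplication of `u` by a power of `Q`. -/
theorem rank_mul {Q n : ℕ} (hQ : 0 < Q) {u : ℂ} {B : ℕ} (h : RankGE Q n (u * (Q : ℂ) ^ B)) : RankGE Q n u := by
  have hQC : (Q : ℂ) ≠ 0 := Nat.cast_ne_zero.2 hQ.ne'
  obtain ⟨σ, hσ⟩ := h
  refine ⟨σ, fun m b hm => hσ m (b + ∑ i, (B : ℤ) * m i) ?_⟩
  rw [zpow_add₀ hQC, ← hm, SF6_zpow_sum hQC, ← Finset.prod_mul_distrib]
  refine Finset.prod_congr rfl fun i _ => ?_
  rw [map_mul, map_pow, map_natCast, mul_zpow, zpow_mul, zpow_natCast]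

theorem small_mul_pow {Q n : ℕ} {u : ℂ} {B : ℕ} {y : ℂ}
    (h : TAF.Small Q {z : ℂ | ∃ M : ℕ, 0 < M ∧ z = (u * (Q : ℂ) ^ B) ^ M} n y) :
    TAF.Small Q {z : ℂ | ∃ M : ℕ, 0 < M ∧ z = u ^ M} n y := by
  obtain ⟨N, hN, hy⟩ := h
  refine ⟨N, hN, Submonoid.closure_mono ?_ hy⟩
  rintro ρ ⟨f, hf, hρ, h1⟩
  refine ⟨f, hf, hρ, h1.imp_right (Or.imp_right fun h2 => ?_)⟩
  rintro _ ⟨M, hM, rfl⟩ hmem
  refine h2 _ ⟨M, hM, rfl⟩ ?_
  rw [mul_pow]
  exact mul_mem hmem (pow_mem (pow_mem (natCast_mem _ Q) B) M)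

/-- **Products with other varieties**: if there are no exotic Tate classes on the powers of `A`, there are none on the products
`A ^ n × Z`, for all `Z` whose Frobenius eigenvalues have nothing in common with those of `A` (`SmallFor`). -/
theorem full_smallFor {Q : ℕ} (hQ : 0 < Q) {P : ℤ[X]} (hm : P.Monic)
    (habs : ∀ z : ℂ, aeval z P = 0 → z * starRingEnd ℂ z = (Q : ℂ)) (hF : TI.Full Q P) :
    TAF.FullFor Q P (SmallFor Q P) := by
  classical
  have hQC : (Q : ℂ) ≠ 0 := Nat.cast_ne_zero.2 hQ.ne'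
  refine full_of_match Q hQ P _ fun k d b z y hd hz hy hrel => ?_
  have hz0 : ∀ a, z a ≠ 0 := fun a h => by
    have h1 := habs (z a) (hz a)
    rw [h, zero_mul] at h1
    exact hQC h1.symm
  obtain ⟨w, hwdef⟩ : ∃ w : ℂ, w = (∏ a, z a) ^ (2 * d) / (Q : ℂ) ^ (d * k) := ⟨_, rfl⟩
  have hQd : (Q : ℂ) ^ (d * k) ≠ 0 := pow_ne_zero _ hQC
  have hwrel : w * y ^ 2 = (Q : ℂ) ^ ((d * b : ℕ) : ℤ) := by
    rw [hwdef, zpow_natCast, div_mul_eq_mul_div, hrel, mul_add, pow_add, mul_div_cancel_left₀ _ hQd]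
  have hroot : ∀ (τ : ℂ ≃+* ℂ) (x : ℂ), aeval x P = 0 → aeval (τ x) P = 0 := by
    intro τ x hx
    have h1 : aeval x (P.map (Int.castRingHom ℚ)) = 0 := by
      rw [← algebraMap_int_eq, aeval_map_algebraMap]
      exact hx
    have h2 := root_conj h1 τ
    rw [← algebraMap_int_eq, aeval_map_algebraMap] at h2
    exact h2
  have hconj : ∀ x : ℂ, aeval x P = 0 → aeval (starRingEnd ℂ x) P = 0 := fun x hx => hroot cj x hx
  have hτw : ∀ τ : ℂ ≃+* ℂ, τ w = (∏ a, τ (z a)) ^ (2 * d) / (Q : ℂ) ^ (d * k) := by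
    intro τ
    rw [hwdef, map_div₀, map_pow, map_pow, map_natCast, map_prod]
  have hodd : ∀ τ : ℂ ≃+* ℂ, starRingEnd ℂ (τ w) * τ w = 1 := by
    intro τ
    have h1 : ∀ a, starRingEnd ℂ (τ (z a)) * τ (z a) = (Q : ℂ) := fun a => by
      rw [mul_comm]
      exact habs _ (hroot τ _ (hz a))
    rw [hτw, map_div₀, map_pow, map_pow, map_natCast, map_prod, div_mul_div_comm, ← mul_pow, ← Finset.prod_mul_distrib,
      Finset.prod_congr rfl fun a _ => h1 a, Finset.prod_const, Finset.card_univ, Fintype.card_fin, ← pow_mul, ← pow_add,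
      div_eq_one_iff_eq (pow_ne_zero _ hQC)]
    congr 1
    ring
  have hw0 : w ≠ 0 := by
    rw [hwdef]
    exact div_ne_zero (pow_ne_zero _ (Finset.prod_ne_zero_iff.2 fun a _ => hz0 a)) hQd
  have halg : IsAlgebraic ℚ w := by
    rw [hwdef]
    have h1 : ∀ a, IsAlgebraic ℚ (z a) := fun a => ⟨P.map (Int.castRingHom ℚ), (hm.map _).ne_zero, by
      rw [← algebraMap_int_eq, aeval_map_algebraMap]
      exact hz a⟩
    have h2 : IsAlgebraic ℚ (∏ a, z a) := by
      refine Finset.prod_induction _ (fun x => IsAlgebraic ℚ x) (fun x y hx hy => hx.mul hy) isAlgebraic_one fun a _ => h1 a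
    have h3 : IsAlgebraic ℚ ((Q : ℂ) ^ (d * k)) := (isAlgebraic_natCast Q).pow _
    rw [div_eq_mul_inv]
    exact (h2.pow _).mul h3.inv
  by_cases hw : cc w = 0
  · obtain ⟨K, hK, h1⟩ := (cc_eq_zero hw0).1 hw
    refine match_of_rel hQ hm hF (D := d * K) (Nat.mul_pos hd hK) hz hz0 ?_
    rw [hwdef, div_pow, div_eq_one_iff_eq (pow_ne_zero _ hQd), ← pow_mul, ← pow_mul] at h1
    rw [← mul_assoc, h1]
    congr 1
    ring
  · exfalso
    obtain ⟨f₀, hf₀, hw₀⟩ := halg
    obtain ⟨u, hu, hu0, hcu, hkey⟩ := key hQ hf₀ hw₀ hodd hw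
    -- a product of roots
    have hprod : ∀ x ∈ Submonoid.closure (Set.range fun τ : ℂ ≃+* ℂ => τ w),
        starRingEnd ℂ x * x = 1 ∧ ∃ B : ℕ, x * (Q : ℂ) ^ B ∈ Submonoid.closure {z : ℂ | aeval z P = 0} := by
      intro x hx
      induction hx using Submonoid.closure_induction with
      | mem x hx =>
        obtain ⟨τ, rfl⟩ := hx
        have h9 : τ w * (Q : ℂ) ^ (d * k) ∈ Submonoid.closure {z : ℂ | aeval z P = 0} := by
          rw [hτw, div_mul_cancel₀ _ hQd]
          have h10 : ∏ a, τ (z a) ∈ Submonoid.closure {z : ℂ | aeval z P = 0} :=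
            Submonoid.prod_mem _ fun a _ => Submonoid.subset_closure (hroot τ _ (hz a))
          exact pow_mem h10 (2 * d)
        exact ⟨hodd τ, d * k, h9⟩
      | one => exact ⟨by rw [map_one, mul_one], 0, by rw [pow_zero, mul_one]; exact one_mem _⟩
      | mul x x' _ _ hx hx' =>
        obtain ⟨h1, B, hB⟩ := hx
        obtain ⟨h1', B', hB'⟩ := hx'
        refine ⟨?_, B + B', ?_⟩
        · rw [map_mul, mul_mul_mul_comm, h1, h1', mul_one]
        · have h2 := mul_mem hB hB'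
          rw [mul_mul_mul_comm, ← pow_add] at h2
          exact h2
    obtain ⟨hu1, B, hB⟩ := hprod u hu
    have hno : ∀ (N : ℕ) (c : ℤ), 0 < N → (u * (Q : ℂ) ^ B) ^ N ≠ (Q : ℂ) ^ c := by
      intro N c hN h1
      refine hcu ((cc_eq_zero hu0).2 ⟨N, hN, ?_⟩)
      have h2 : u ^ N = (Q : ℂ) ^ (c - (B * N : ℕ)) := by
        rw [zpow_sub₀ hQC, zpow_natCast, ← h1, mul_pow, ← pow_mul, mul_div_cancel_right₀ _ (pow_ne_zero _ hQC)]
      have h3 : starRingEnd ℂ (u ^ N) = u ^ N := by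
        rw [h2, map_zpow₀, map_natCast]
      have h4 : (u ^ N) * (u ^ N) = 1 := by
        nth_rewrite 1 [← h3]
        rw [map_pow, ← mul_pow, hu1, one_pow]
      have h0 : (((Q : ℝ) ^ (c - (B * N : ℕ)) : ℝ) : ℂ) = (Q : ℂ) ^ (c - (B * N : ℕ)) := by
        rw [Complex.ofReal_zpow, Complex.ofReal_natCast]
      have h5 : ((Q : ℝ) ^ (c - (B * N : ℕ))) * ((Q : ℝ) ^ (c - (B * N : ℕ))) = 1 := by
        rw [h2, ← h0, ← Complex.ofReal_mul, Complex.ofReal_eq_one] at h4
        exact h4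
      have h6 : (0 : ℝ) < (Q : ℝ) ^ (c - (B * N : ℕ)) := zpow_pos (by exact_mod_cast hQ) _
      have h7 : (Q : ℝ) ^ (c - (B * N : ℕ)) = 1 := by nlinarith
      rw [h2, ← h0, h7, Complex.ofReal_one]
    obtain ⟨n, hn, hsm⟩ := hy _ hB hno
    exact hkey n y _ (rank_mul hQ hn) (small_mul_pow hsm) hwrel

end TSF
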