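import Pool.Agent.Lib.MP_021685_agSF.SF6
import Pool.Agent.Lib.MP_021685_agTM.MD
import Pool.Agent.Lib.MP_021685_agTM.RS

/-! Polynomials without exotic Tate classes on the powers are good, with all foreign numbers. -/

set_option autoImplicit false

namespace TSF

open Polynomial

theorem rankLT_mono {Q n n' : ℕ} (h : n ≤ n') {f : ℚ[X]} (hf : TAR.RankLT Q n f) : TAR.RankLT Q n' f := by
  intro w hw
  obtain ⟨m, b, hm, hb⟩ := hf (fun j => w (Fin.castLE h j)) fun j => hw _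
  have hinj : Function.Injective (Fin.castLE h) := Fin.castLE_injective h
  refine ⟨Function.extend (Fin.castLE h) m 0, b, fun h0 => hm ?_, ?_⟩
  · funext j
    have h1 := congrFun h0 (Fin.castLE h j)
    rw [hinj.extend_apply] at h1
    exact h1
  · rw [← hb]
    symm
    refine Finset.prod_of_injOn (Fin.castLE h) hinj.injOn (fun _ _ => Finset.mem_coe.2 (Finset.mem_univ _)) ?_ ?_
    · intro i _ hi
      rw [Function.extend_apply', Pi.zero_apply, zpow_zero]
      rintro ⟨j, rfl⟩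
      exact hi ⟨j, Finset.mem_coe.2 (Finset.mem_univ _), rfl⟩
    · intro j _
      rw [hinj.extend_apply]

theorem small_mono {Q n n' : ℕ} (h : n ≤ n') {R : Set ℂ} {y : ℂ} (hy : TAF.Small Q R n y) : TAF.Small Q R n' y := by
  obtain ⟨N, hN, h1⟩ := hy
  refine ⟨N, hN, Submonoid.closure_mono ?_ h1⟩
  rintro ρ ⟨f, hf, hρ, h2⟩
  refine ⟨f, hf, hρ, ?_⟩
  rcases h2 with h2 | h2 | h2
  · exact Or.inl (by omega)
  · exact Or.inr (Or.inl (rankLT_mono h h2))
  · exact Or.inr (Or.inr h2)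

theorem rank_one {Q : ℕ} {u : ℂ} (hu : ∀ (N : ℕ) (b : ℤ), 0 < N → u ^ N ≠ (Q : ℂ) ^ b) : RankGE Q 1 u := by
  refine ⟨fun _ => 1, fun m b hm i => ?_⟩
  rw [Fin.prod_univ_one] at hm
  have hm' : u ^ m 0 = (Q : ℂ) ^ b := hm
  rw [Subsingleton.elim i 0]
  by_contra h0
  rcases Int.natAbs_eq (m 0) with h1 | h1
  · rw [h1, zpow_natCast] at hm'
    exact hu _ b (Int.natAbs_pos.2 h0) hm'
  · rw [h1, zpow_neg, zpow_natCast] at hm'
    refine hu _ (-b) (Int.natAbs_pos.2 h0) ?_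
    rw [zpow_neg, ← hm', inv_inv]

/-- One may suppose that the number `n` is positive, and the same for two numbers `y`. -/
theorem smallFor_two {Q : ℕ} {P : ℤ[X]} {y y' : ℂ} (hy : SmallFor Q P y) (hy' : SmallFor Q P y') {u : ℂ}
    (hu : u ∈ Submonoid.closure {z : ℂ | aeval z P = 0}) (h : ∀ (N : ℕ) (b : ℤ), 0 < N → u ^ N ≠ (Q : ℂ) ^ b) :
    ∃ n : ℕ, 0 < n ∧ RankGE Q n u ∧ TAF.Small Q {z : ℂ | ∃ M : ℕ, 0 < M ∧ z = u ^ M} n y ∧
      TAF.Small Q {z : ℂ | ∃ M : ℕ, 0 < M ∧ z = u ^ M} n y' := by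
  obtain ⟨n, hn, h1⟩ := hy u hu h
  obtain ⟨n', hn', h1'⟩ := hy' u hu h
  have hr := rank_one h
  refine ⟨max 1 (max n n'), by omega, ?_, small_mono (by omega) h1, small_mono (by omega) h1'⟩
  rcases max_choice 1 (max n n') with h2 | h2
  · rw [h2]; exact hr
  · rw [h2]
    rcases max_choice n n' with h3 | h3
    · rw [h3]; exact hn
    · rw [h3]; exact hn'

theorem smallFor_one {Q : ℕ} {P : ℤ[X]} : SmallFor Q P 1 := fun _ _ h => ⟨1, rank_one h, TPM.small_one⟩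

theorem smallFor_nat {Q : ℕ} {P : ℤ[X]} (m : ℕ) : SmallFor Q P m := fun _ _ h => ⟨1, rank_one h, TPM.small_nat one_pos m⟩

theorem smallFor_mul {Q : ℕ} {P : ℤ[X]} {y y' : ℂ} (hy : SmallFor Q P y) (hy' : SmallFor Q P y') :
    SmallFor Q P (y * y') := by
  intro u hu h
  obtain ⟨n, -, hn, h1, h2⟩ := smallFor_two hy hy' hu h
  exact ⟨n, hn, TPM.small_mul h1 h2⟩

theorem smallFor_inv {Q : ℕ} {P : ℤ[X]} {y : ℂ} (hy : SmallFor Q P y) : SmallFor Q P y⁻¹ := by
  rcases eq_or_ne y 0 with rfl | h0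
  · rw [inv_zero]
    exact hy
  · intro u hu h
    obtain ⟨n, hn, h1⟩ := hy u hu h
    exact ⟨n, hn, TPM.small_inv h0 h1⟩

theorem smallFor_pow {Q : ℕ} {P : ℤ[X]} {y : ℂ} (hy : SmallFor Q P y) (d : ℕ) : SmallFor Q P (y ^ d) := by
  induction d with
  | zero => rw [pow_zero]; exact smallFor_one
  | succ d ih => rw [pow_succ]; exact smallFor_mul ih hy

/-- **Polynomials without exotic Tate classes are good**, with the set of all the foreign numbers. -/
theorem good_smallFor {Q : ℕ} (hQ : 1 < Q) {P : ℤ[X]} (hm : P.Monic) (hsep : (P.map (Int.castRingHom ℂ)).Separable)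
    (habs : ∀ z : ℂ, aeval z P = 0 → z * starRingEnd ℂ z = (Q : ℂ)) (hF : TI.Full Q P) :
    TPM.Good Q P (SmallFor Q P) :=
  ⟨hQ, hm, hsep, habs, smallFor_one, smallFor_nat Q, fun _ _ h h' => smallFor_mul h h', fun _ h => smallFor_inv h,
    full_smallFor (by omega) hm habs hF⟩

end TSF
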