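import Pool.Agent.Lib.MP_021685_agTI.TD

/-! Definition used in the statement of `MP_021685_ag.AlmostAllLifts`: no exotic Tate classes on the powers. -/

set_option autoImplicit false

namespace TSF

open Polynomial

/-- **No exotic Tate classes on the powers** of an abelian variety over a field with `Q` elements with Frobenius polynomial `P`: for
every semisimple operator `F` with characteristic polynomial `P` and for every extension degree `d > 0`, all Tate forms in an even
number `k` of arguments (Tate classes of degree `k` on the powers) are linear combinations of products of Tate pairings (classes of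
divisors, by Tate) over the same extension. -/
def EvenFull (Q : ℕ) (P : ℤ[X]) : Prop :=
  ∀ (V : Type) [AddCommGroup V] [Module ℂ V] [FiniteDimensional ℂ V] (F : V →ₗ[ℂ] V),
    Module.End.IsSemisimple F → F.charpoly = P.map (Int.castRingHom ℂ) →
      ∀ d k : ℕ, 0 < d → Even k → ∀ T : MultilinearMap ℂ (fun _ : Fin k => V) ℂ, TI.IsTate Q d k F T →
        T ∈ Submodule.span ℂ {T' : MultilinearMap ℂ (fun _ : Fin k => V) ℂ | TI.IsProduct Q d k F T'}

end TSF
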